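import Mathlib

/-!
# Order of vanishing of polynomials at a vector

`Vi P k` is the ideal of polynomials whose translate by `P` has no monomials of degree `< k`.
-/

set_option autoImplicit false

open MvPolynomial

namespace Pool.Agent.Helper50.Dem

section basic

variable {σ : Type} {K : Type*} [CommRing K]

/-- translation `f(X) ↦ f(X + P)` -/
noncomputable def tr (P : σ → K) : MvPolynomial σ K →ₐ[K] MvPolynomial σ K :=
  aeval (fun i => X i + C (P i))

@[simp] lemma tr_X (P : σ → K) (i : σ) : tr P (X i) = X i + C (P i) := by simp [tr]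

@[simp] lemma tr_C (P : σ → K) (c : K) : tr P (C c) = C c := by simp [tr]

lemma tr_tr (P Q : σ → K) (f : MvPolynomial σ K) : tr P (tr Q f) = tr (P + Q) f := by
  have : (tr P).comp (tr Q) = tr (P + Q) := by
    apply MvPolynomial.algHom_ext
    intro i
    simp [add_assoc]
  exact congrArg (fun φ => φ f) this

lemma tr_zero (f : MvPolynomial σ K) : tr (0 : σ → K) f = f := by
  have : tr (0 : σ → K) = AlgHom.id K _ := by
    apply MvPolynomial.algHom_ext
    intro i
    simp
  rw [this]; rfl

lemma tr_injective (P : σ → K) : Function.Injective (tr P) := by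
  intro f g h
  have h1 := congrArg (tr (-P)) h
  rw [tr_tr, tr_tr] at h1
  simpa [tr_zero] using h1

/-- the ideal of polynomials vanishing to order at least `k` at `P` -/
noncomputable def Vi (P : σ → K) (k : ℕ) : Ideal (MvPolynomial σ K) :=
  (idealOfVars σ K ^ k).comap (tr P)

lemma mem_Vi {P : σ → K} {k : ℕ} {f : MvPolynomial σ K} :
    f ∈ Vi P k ↔ ∀ u : σ →₀ ℕ, u.degree < k → coeff u (tr P f) = 0 := by
  unfold Vi
  rw [Ideal.mem_comap]
  exact mem_pow_idealOfVars_iff' _ _

lemma Vi_mul {P : σ → K} {a b : ℕ} {f g : MvPolynomial σ K} (hf : f ∈ Vi P a) (hg : g ∈ Vi P b) :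
    f * g ∈ Vi P (a + b) := by
  unfold Vi at *
  rw [Ideal.mem_comap] at *
  rw [map_mul, pow_add]
  exact Ideal.mul_mem_mul hf hg

lemma Vi_mono {P : σ → K} {a b : ℕ} (h : a ≤ b) {f : MvPolynomial σ K} (hf : f ∈ Vi P b) :
    f ∈ Vi P a := by
  unfold Vi at *
  rw [Ideal.mem_comap] at *
  exact Ideal.pow_le_pow_right h hf

lemma Vi_zero {P : σ → K} (f : MvPolynomial σ K) : f ∈ Vi P 0 := by
  unfold Vi
  rw [Ideal.mem_comap, pow_zero, Ideal.one_eq_top]
  trivial

lemma Vi_pow {P : σ → K} {a : ℕ} {f : MvPolynomial σ K} (hf : f ∈ Vi P a) (n : ℕ) :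
    f ^ n ∈ Vi P (n * a) := by
  induction n with
  | zero => rw [Nat.zero_mul]; exact Vi_zero _
  | succ n ih =>
    rw [pow_succ, Nat.succ_mul]
    exact Vi_mul ih hf

/-- coefficients of degree `≥ n` vanish -/
def LT (n : ℕ) (r : MvPolynomial σ K) : Prop := ∀ u : σ →₀ ℕ, n ≤ u.degree → coeff u r = 0

lemma LT.add {n : ℕ} {r s : MvPolynomial σ K} (hr : LT n r) (hs : LT n s) : LT n (r + s) := by
  intro u hu
  rw [coeff_add, hr u hu, hs u hu, add_zero]

lemma LT.C_mul {n : ℕ} {r : MvPolynomial σ K} (hr : LT n r) (c : K) : LT n (C c * r) := by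
  intro u hu
  rw [coeff_C_mul, hr u hu, mul_zero]

lemma LT.mono {n m : ℕ} (h : n ≤ m) {r : MvPolynomial σ K} (hr : LT n r) : LT m r :=
  fun u hu => hr u (h.trans hu)

lemma LT.X_mul {n : ℕ} {r : MvPolynomial σ K} (hr : LT n r) (i : σ) : LT (n + 1) (X i * r) := by
  classical
  intro u hu
  rw [coeff_X_mul']
  split_ifs with h
  · apply hr
    have h1 : u.degree = (u - Finsupp.single i 1).degree + 1 := by
      have h2 : u = (u - Finsupp.single i 1) + Finsupp.single i 1 := by
        ext j
        by_cases hj : i = j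
        · subst hj
          have := Finsupp.mem_support_iff.1 h
          simp; omega
        · simp [Finsupp.single_eq_of_ne (Ne.symm hj)]
      conv_lhs => rw [h2]
      rw [map_add, Finsupp.degree_single]
    omega
  · rfl

lemma LT_monomial {n : ℕ} (b : σ →₀ ℕ) (c : K) (h : b.degree < n) : LT n (monomial b c) := by
  classical
  intro u hu
  rw [coeff_monomial, if_neg]
  rintro rfl
  omega

lemma tr_monomial_sub (P : σ → K) (b : σ →₀ ℕ) :
    LT b.degree (tr P (monomial b 1) - monomial b 1) := by
  classical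
  induction b using Finsupp.induction_linear with
  | zero =>
    have : tr P (monomial 0 (1 : K)) - monomial 0 1 = 0 := by
      have h1 : (monomial 0 (1 : K) : MvPolynomial σ K) = 1 := rfl
      rw [h1, map_one, sub_self]
    rw [this]; intro u _; exact coeff_zero _
  | add f g hf hg =>
    have h1 : (monomial (f + g) (1 : K) : MvPolynomial σ K) = monomial f 1 * monomial g 1 := by
      rw [monomial_mul, one_mul]
    have h2 : tr P (monomial (f + g) 1) - monomial (f + g) 1
        = (tr P (monomial f 1) - monomial f 1) * (tr P (monomial g 1) - monomial g 1)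
          + (tr P (monomial f 1) - monomial f 1) * monomial g 1
          + monomial f 1 * (tr P (monomial g 1) - monomial g 1) := by
      rw [h1, map_mul]; ring
    rw [h2]
    have key : ∀ {a b : ℕ} {r s : MvPolynomial σ K}, LT a r → LT b s → ∀ u : σ →₀ ℕ,
        a + b ≤ u.degree + 1 → coeff u (r * s) = 0 := by
      intro a b r s hr hs u hu
      rw [coeff_mul]
      apply Finset.sum_eq_zero
      rintro ⟨x, y⟩ hxy
      have h3 : x + y = u := Finset.HasAntidiagonal.mem_antidiagonal.1 hxy
      have h4 : x.degree + y.degree = u.degree := by rw [← h3, map_add]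
      by_cases hx : a ≤ x.degree
      · simp only; rw [hr x hx, zero_mul]
      · simp only; rw [hs y (by omega), mul_zero]
    have hm : ∀ c : σ →₀ ℕ, LT (c.degree + 1) (monomial c (1 : K)) :=
      fun c => LT_monomial c 1 (Nat.lt_succ_self _)
    intro u hu
    rw [map_add] at hu
    rw [coeff_add, coeff_add, key hf hg u (by omega), key hf (hm g) u (by omega),
      key (hm f) hg u (by omega)]
    simp
  | single i n =>
    rw [Finsupp.degree_single]
    have hX : ∀ n : ℕ, (monomial (Finsupp.single i n) (1 : K) : MvPolynomial σ K) = X i ^ n := by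
      intro n; rw [X_pow_eq_monomial]
    rw [hX]
    induction n with
    | zero =>
      rw [pow_zero, map_one, sub_self]; intro u _; exact coeff_zero _
    | succ n ih =>
      have h2 : tr P (X i ^ (n + 1)) - X i ^ (n + 1)
          = X i * (tr P (X i ^ n) - X i ^ n) + C (P i) * (tr P (X i ^ n) - X i ^ n)
            + C (P i) * X i ^ n := by
        rw [pow_succ, map_mul, tr_X]; ring
      rw [h2]
      refine ((ih.X_mul i).add ((ih.C_mul _).mono (Nat.le_succ n))).add ?_
      apply LT.C_mul
      rw [← hX]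
      apply LT_monomial
      rw [Finsupp.degree_single]; omega

/-- top degree coefficients are unchanged by translation -/
lemma coeff_tr_of_le (P : σ → K) {n : ℕ} {f : MvPolynomial σ K} (hf : LT (n + 1) f) (u : σ →₀ ℕ)
    (hu : n ≤ u.degree) : coeff u (tr P f) = coeff u f := by
  classical
  have h1 : tr P f - f = ∑ b ∈ f.support, C (coeff b f) * (tr P (monomial b 1) - monomial b 1) := by
    conv_lhs => rw [f.as_sum]
    rw [map_sum, ← Finset.sum_sub_distrib]
    apply Finset.sum_congr rfl
    intro b _
    have h2 : (monomial b (coeff b f) : MvPolynomial σ K) = C (coeff b f) * monomial b 1 := by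
      rw [C_mul_monomial, mul_one]
    rw [h2, map_mul, tr_C]; ring
  have h2 : coeff u (tr P f - f) = 0 := by
    rw [h1, coeff_sum]
    apply Finset.sum_eq_zero
    intro b hb
    rw [coeff_C_mul]
    have h3 : b.degree ≤ n := by
      by_contra h4
      exact (mem_support_iff.1 hb) (hf b (by omega))
    rw [tr_monomial_sub P b u (h3.trans hu), mul_zero]
  rw [coeff_sub] at h2
  exact sub_eq_zero.1 h2

lemma IsHomogeneous.LT {n : ℕ} {f : MvPolynomial σ K} (hf : f.IsHomogeneous n) : LT (n + 1) f := by
  intro u hu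
  exact hf.coeff_eq_zero (by omega)

/-- the order of vanishing of a nonzero form is at most its degree -/
lemma order_le_degree {n k : ℕ} {f : MvPolynomial σ K} (hf : f.IsHomogeneous n) (h0 : f ≠ 0)
    (P : σ → K) (h : f ∈ Vi P k) : k ≤ n := by
  obtain ⟨u, hu⟩ := ne_zero_iff.1 h0
  have hun : u.degree = n := by
    by_contra h1
    exact hu (hf.coeff_eq_zero h1)
  by_contra h2
  have h3 := mem_Vi.1 h u (by omega)
  rw [coeff_tr_of_le P (IsHomogeneous.LT hf) u (by omega)] at h3
  exact hu h3

/-- functoriality of translation -/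
lemma map_tr {L : Type*} [CommRing L] (θ : K →+* L) (P : σ → K) (f : MvPolynomial σ K) :
    map θ (tr P f) = tr (fun i => θ (P i)) (map θ f) := by
  have h : (map θ).comp (tr P : MvPolynomial σ K →ₐ[K] MvPolynomial σ K).toRingHom
      = (tr (fun i => θ (P i)) : MvPolynomial σ L →ₐ[L] MvPolynomial σ L).toRingHom.comp
        (map θ) := by
    apply MvPolynomial.ringHom_ext
    · intro r; simp
    · intro i; simp
  exact congrArg (fun φ => φ f) h

lemma map_mem_Vi {L : Type*} [CommRing L] (θ : K →+* L) {P : σ → K} {k : ℕ}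
    {f : MvPolynomial σ K} (hf : f ∈ Vi P k) : map θ f ∈ Vi (fun i => θ (P i)) k := by
  rw [mem_Vi] at *
  intro u hu
  rw [← map_tr, coeff_map, hf u hu, map_zero]

lemma mem_Vi_of_map {L : Type*} [CommRing L] (θ : K →+* L) (hθ : Function.Injective θ)
    {P : σ → K} {k : ℕ} {f : MvPolynomial σ K} (hf : map θ f ∈ Vi (fun i => θ (P i)) k) :
    f ∈ Vi P k := by
  rw [mem_Vi] at *
  intro u hu
  apply hθ
  rw [map_zero, ← coeff_map, map_tr, hf u hu]

lemma tr_pderiv (P : σ → K) (i : σ) (f : MvPolynomial σ K) :
    tr P (pderiv i f) = pderiv i (tr P f) := by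
  classical
  induction f using MvPolynomial.induction_on with
  | C a => simp
  | add p q hp hq => simp only [map_add, hp, hq]
  | mul_X p j hp =>
    rw [pderiv_mul, map_add, map_mul, map_mul, hp, map_mul, pderiv_mul, tr_X, map_add,
      pderiv_C, add_zero, pderiv_X]
    by_cases h : i = j
    · subst h; simp
    · rw [Pi.single_eq_of_ne (Ne.symm h)]; simp

/-- derivatives lower the order of vanishing by at most one -/
lemma pderiv_mem_Vi {P : σ → K} {k : ℕ} {f : MvPolynomial σ K} (hf : f ∈ Vi P (k + 1)) (i : σ) :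
    pderiv i f ∈ Vi P k := by
  rw [mem_Vi] at *
  intro u hu
  rw [tr_pderiv, coeff_pderiv, hf _ (by rw [map_add, Finsupp.degree_single]; omega), zero_mul]

end basic

end Pool.Agent.Helper50.Dem
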