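import Mathlib
import Pool.Agent.Helper50.Dem.Order

/-!
# Roots of the components of a polynomial in characteristic `p`

For `q = p ^ e` and an exponent `a`, `rt p e a f` is the polynomial whose coefficient at `c` is the
`q`-th root of the coefficient of `f` at `q • c + a`.
-/

set_option autoImplicit false

open MvPolynomial

namespace Pool.Agent.Helper50.Dem

variable {σ : Type} {K : Type*} [Field K] [IsAlgClosed K] (p : ℕ) [Fact p.Prime] [CharP K p]
  (e : ℕ)

omit [IsAlgClosed K] in
lemma pow_q_inj {x y : K} (h : x ^ p ^ e = y ^ p ^ e) : x = y := by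
  have h1 : (x - y) ^ p ^ e = 0 := by
    rw [sub_pow_char_pow, h, sub_self]
  exact sub_eq_zero.1 (pow_eq_zero_iff (pow_ne_zero e (Fact.out : p.Prime).ne_zero) |>.1 h1)

lemma exists_pow_q (α : K) : ∃ β : K, β ^ p ^ e = α :=
  IsAlgClosed.exists_pow_nat_eq α (pow_pos (Fact.out : p.Prime).pos e)

lemma q_pos : 0 < p ^ e := pow_pos (Fact.out : p.Prime).pos e

lemma exists_rt (a : σ →₀ ℕ) (f : MvPolynomial σ K) :
    ∃ g : MvPolynomial σ K, ∀ c, (coeff c g) ^ p ^ e = coeff (p ^ e • c + a) f := by
  classical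
  have hq := q_pos p e
  induction f using MvPolynomial.induction_on' with
  | monomial u α =>
    by_cases h : ∃ c : σ →₀ ℕ, p ^ e • c + a = u
    · obtain ⟨c, rfl⟩ := h
      obtain ⟨β, hβ⟩ := exists_pow_q p e α
      refine ⟨monomial c β, fun c' => ?_⟩
      rw [coeff_monomial, coeff_monomial]
      by_cases hc : c = c'
      · subst hc; rw [if_pos rfl, if_pos rfl, hβ]
      · rw [if_neg hc, if_neg, zero_pow hq.ne']
        intro h1
        apply hc
        have h2 : p ^ e • c = p ^ e • c' := add_right_cancel h1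
        ext i
        have h3 := DFunLike.congr_fun h2 i
        simp only [Finsupp.coe_smul, Pi.smul_apply, smul_eq_mul] at h3
        exact Nat.eq_of_mul_eq_mul_left hq h3
    · refine ⟨0, fun c' => ?_⟩
      rw [coeff_zero, zero_pow hq.ne', coeff_monomial, if_neg]
      intro h1
      exact h ⟨c', h1.symm⟩
  | add f g hf hg =>
    obtain ⟨f', hf'⟩ := hf
    obtain ⟨g', hg'⟩ := hg
    refine ⟨f' + g', fun c => ?_⟩
    rw [coeff_add, coeff_add, add_pow_char_pow, hf', hg']

/-- the root of the `a`-component -/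
noncomputable def rt (a : σ →₀ ℕ) (f : MvPolynomial σ K) : MvPolynomial σ K :=
  (exists_rt p e a f).choose

lemma rt_spec (a : σ →₀ ℕ) (f : MvPolynomial σ K) (c : σ →₀ ℕ) :
    (coeff c (rt p e a f)) ^ p ^ e = coeff (p ^ e • c + a) f :=
  (exists_rt p e a f).choose_spec c

lemma rt_ext {a : σ →₀ ℕ} {f g : MvPolynomial σ K}
    (h : ∀ c, (coeff c g) ^ p ^ e = coeff (p ^ e • c + a) f) : rt p e a f = g := by
  ext c
  apply pow_q_inj p e
  rw [rt_spec, h]

lemma rt_add (a : σ →₀ ℕ) (f g : MvPolynomial σ K) :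
    rt p e a (f + g) = rt p e a f + rt p e a g := by
  apply rt_ext
  intro c
  rw [coeff_add, coeff_add, add_pow_char_pow, rt_spec, rt_spec]

lemma rt_zero (a : σ →₀ ℕ) : rt p e a (0 : MvPolynomial σ K) = 0 := by
  apply rt_ext
  intro c
  rw [coeff_zero, coeff_zero, zero_pow (q_pos p e).ne']

lemma rt_sum {ι : Type*} (s : Finset ι) (a : σ →₀ ℕ) (f : ι → MvPolynomial σ K) :
    rt p e a (∑ i ∈ s, f i) = ∑ i ∈ s, rt p e a (f i) := by
  classical
  induction s using Finset.induction_on with
  | empty => simp [rt_zero]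
  | insert i s hi ih => rw [Finset.sum_insert hi, rt_add, ih, Finset.sum_insert hi]

lemma rt_pow_mul {a : σ →₀ ℕ} (ha : ∀ i, a i < p ^ e) (g h : MvPolynomial σ K) :
    rt p e a (g ^ p ^ e * h) = g * rt p e a h := by
  classical
  have hq := q_pos p e
  induction g using MvPolynomial.induction_on' with
  | monomial u α =>
    apply rt_ext
    intro c
    rw [monomial_pow, coeff_monomial_mul', coeff_monomial_mul']
    by_cases hu : u ≤ c
    · have hu' : p ^ e • u ≤ p ^ e • c + a := by
        intro i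
        have := hu i
        simp only [Finsupp.coe_smul, Finsupp.coe_add, Pi.smul_apply, Pi.add_apply, smul_eq_mul]
        nlinarith
      rw [if_pos hu, if_pos hu', mul_pow, rt_spec]
      congr 2
      ext i
      have := hu i
      simp only [Finsupp.coe_smul, Finsupp.coe_add, Finsupp.coe_tsub, Pi.smul_apply, Pi.add_apply,
        Pi.sub_apply, smul_eq_mul]
      rw [Nat.mul_sub]
      have h1 : p ^ e * u i ≤ p ^ e * c i := Nat.mul_le_mul_left _ this
      omega
    · have hu' : ¬ p ^ e • u ≤ p ^ e • c + a := by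
        intro h1
        apply hu
        intro i
        have h2 := h1 i
        have h3 := ha i
        simp only [Finsupp.coe_smul, Finsupp.coe_add, Pi.smul_apply, Pi.add_apply,
          smul_eq_mul] at h2
        by_contra h4
        have h5 : c i + 1 ≤ u i := by omega
        have h6 : p ^ e * (c i + 1) ≤ p ^ e * u i := Nat.mul_le_mul_left _ h5
        rw [Nat.mul_add] at h6
        omega
      rw [if_neg hu, if_neg hu', zero_pow hq.ne']
  | add f g hf hg =>
    rw [add_pow_char_pow, add_mul, rt_add, hf, hg, add_mul]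

lemma rt_pow {g : MvPolynomial σ K} : rt p e 0 (g ^ p ^ e) = g := by
  have h := rt_pow_mul p e (a := (0 : σ →₀ ℕ)) (fun i => by simpa using q_pos p e) g
    (1 : MvPolynomial σ K)
  rw [mul_one] at h
  rw [h]
  have h1 : rt p e 0 (1 : MvPolynomial σ K) = 1 := by
    classical
    apply rt_ext
    intro c
    rw [add_zero, coeff_one, coeff_one]
    by_cases hc : 0 = c
    · subst hc; simp
    · rw [if_neg hc, if_neg, zero_pow (q_pos p e).ne']
      intro h1
      apply hc
      ext i
      have h3 := DFunLike.congr_fun h1 i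
      simp only [Finsupp.coe_smul, Pi.smul_apply, smul_eq_mul, Finsupp.coe_zero, Pi.zero_apply] at h3
      have := (Nat.mul_eq_zero.1 h3.symm).resolve_left (q_pos p e).ne'
      simp [this]
  rw [h1, mul_one]

lemma coeff_pow_q (g : MvPolynomial σ K) (c : σ →₀ ℕ) :
    coeff (p ^ e • c) (g ^ p ^ e) = (coeff c g) ^ p ^ e := by
  have h := rt_spec p e 0 (g ^ p ^ e) c
  rw [rt_pow, add_zero] at h
  exact h.symm

lemma degree_smul' (q : ℕ) (c : σ →₀ ℕ) : (q • c).degree = q * c.degree := by
  rw [map_nsmul, smul_eq_mul]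

/-- the order of vanishing of a `q`-th power -/
lemma mem_Vi_of_pow {P : σ → K} {k k' : ℕ} {g : MvPolynomial σ K} (hg : g ^ p ^ e ∈ Vi P k)
    (hk : ∀ j < k', p ^ e * j < k) : g ∈ Vi P k' := by
  rw [mem_Vi] at *
  intro u hu
  have h1 := hg (p ^ e • u) (by rw [degree_smul']; exact hk _ hu)
  rw [map_pow, coeff_pow_q] at h1
  exact (pow_eq_zero_iff (q_pos p e).ne').1 h1

/-- quotient of an exponent -/
noncomputable def dv (q : ℕ) (u : σ →₀ ℕ) : σ →₀ ℕ := Finsupp.mapRange (· / q) (by simp) u

/-- residue of an exponent -/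
noncomputable def md (q : ℕ) (u : σ →₀ ℕ) : σ →₀ ℕ := Finsupp.mapRange (· % q) (by simp) u

lemma dv_apply (q : ℕ) (u : σ →₀ ℕ) (i : σ) : dv q u i = u i / q := by simp [dv]

lemma md_apply (q : ℕ) (u : σ →₀ ℕ) (i : σ) : md q u i = u i % q := by simp [md]

lemma dv_md (q : ℕ) (u : σ →₀ ℕ) : q • dv q u + md q u = u := by
  ext i
  simp only [Finsupp.coe_add, Finsupp.coe_smul, Pi.add_apply, Pi.smul_apply, smul_eq_mul, dv_apply,
    md_apply]
  exact Nat.div_add_mod _ _

lemma monomial_split (u : σ →₀ ℕ) (α : K) : ∃ β : K, (monomial u α : MvPolynomial σ K)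
    = (monomial (dv (p ^ e) u) β) ^ p ^ e * monomial (md (p ^ e) u) 1 := by
  obtain ⟨β, hβ⟩ := exists_pow_q p e α
  refine ⟨β, ?_⟩
  rw [monomial_pow, monomial_mul, mul_one, hβ, dv_md]

/-- the top component commutes with translation -/
lemma rt_tr_top (P : σ → K) {a : σ →₀ ℕ} (ha : ∀ i, a i < p ^ e) {f : MvPolynomial σ K}
    (hmax : ∀ u ∈ f.support, (md (p ^ e) u).degree ≤ a.degree) :
    rt p e a (tr P f) = tr P (rt p e a f) := by
  classical
  have hq := q_pos p e
  conv_lhs => rw [f.as_sum]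
  conv_rhs => rw [f.as_sum]
  rw [map_sum, rt_sum, rt_sum, map_sum]
  apply Finset.sum_congr rfl
  intro u hu
  obtain ⟨β, hβ⟩ := monomial_split p e u (coeff u f)
  rw [hβ, map_mul, map_pow, rt_pow_mul p e ha, rt_pow_mul p e ha, map_mul]
  congr 1
  set b := md (p ^ e) u with hb
  have hba : b.degree ≤ a.degree := hmax u hu
  have key : ∀ c : σ →₀ ℕ, coeff (p ^ e • c + a) (tr P (monomial b (1 : K)))
      = coeff (p ^ e • c + a) (monomial b (1 : K)) := by
    intro c
    apply coeff_tr_of_le P (n := b.degree)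
    · exact IsHomogeneous.LT (isHomogeneous_monomial _ rfl)
    · rw [map_add]; omega
  have h1 : rt p e a (tr P (monomial b (1 : K))) = rt p e a (monomial b (1 : K)) := by
    apply rt_ext
    intro c
    rw [rt_spec, key]
  have h2 : rt p e a (monomial b (1 : K)) = C (if b = a then 1 else 0) := by
    apply rt_ext
    intro c
    rw [coeff_C, coeff_monomial]
    by_cases hc : 0 = c
    · subst hc
      rw [if_pos rfl, smul_zero, zero_add]
      split_ifs
      · rw [one_pow]
      · rw [zero_pow hq.ne']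
    · rw [if_neg hc, zero_pow hq.ne', if_neg]
      intro h3
      have h4 : b.degree = p ^ e * c.degree + a.degree := by
        rw [h3, map_add, degree_smul']
      have h5 : 0 < c.degree := by
        rw [Nat.pos_iff_ne_zero]
        intro h6
        exact hc ((Finsupp.degree_eq_zero_iff c).1 h6).symm
      have h6 : 0 < p ^ e * c.degree := Nat.mul_pos hq h5
      omega
  rw [h1, h2, tr_C]

lemma rt_mem_Vi_top {P : σ → K} {a : σ →₀ ℕ} (ha : ∀ i, a i < p ^ e) {f : MvPolynomial σ K}
    (hmax : ∀ u ∈ f.support, (md (p ^ e) u).degree ≤ a.degree) {k k' : ℕ} (hf : f ∈ Vi P k)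
    (hk : ∀ j < k', p ^ e * j + a.degree < k) : rt p e a f ∈ Vi P k' := by
  rw [mem_Vi] at *
  intro u hu
  rw [← rt_tr_top p e P ha hmax]
  have h1 := rt_spec p e a (tr P f) u
  rw [hf _ (by rw [map_add, degree_smul']; exact hk _ hu)] at h1
  exact (pow_eq_zero_iff (q_pos p e).ne').1 h1

lemma rt_isHomogeneous {a : σ →₀ ℕ} {f : MvPolynomial σ K} {d n : ℕ} (hf : f.IsHomogeneous d)
    (hn : p ^ e * n + a.degree = d) : (rt p e a f).IsHomogeneous n := by
  intro c hc
  have h1 : coeff (p ^ e • c + a) f ≠ 0 := by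
    rw [← rt_spec]
    exact pow_ne_zero _ hc
  have h2 : (p ^ e • c + a).degree = d := by
    by_contra h3
    exact h1 (hf.coeff_eq_zero h3)
  rw [map_add, degree_smul', ← hn] at h2
  have h3 : p ^ e * c.degree = p ^ e * n := by omega
  have h4 := Nat.eq_of_mul_eq_mul_left (q_pos p e) h3
  rw [← h4]
  exact (Finsupp.degree_eq_weight_one (R := ℕ) ▸ rfl)

lemma rt_ne_zero {f : MvPolynomial σ K} {u : σ →₀ ℕ} (hu : u ∈ f.support) :
    rt p e (md (p ^ e) u) f ≠ 0 := by
  intro h
  have h1 := rt_spec p e (md (p ^ e) u) f (dv (p ^ e) u)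
  rw [dv_md, h, coeff_zero, zero_pow (q_pos p e).ne'] at h1
  exact (mem_support_iff.1 hu) h1.symm

end Pool.Agent.Helper50.Dem
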