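import Mathlib
import Pool.Agent.Helper50.Dem.Root

/-!
# Forms vanishing at a point are polynomials in linear forms vanishing there
-/

set_option autoImplicit false

open MvPolynomial

namespace Pool.Agent.Helper50.Dem

section field

variable {σ : Type} [DecidableEq σ] {K : Type*} [Field K]

/-- the linear form `X i - (P i / P i₀) X i₀` -/
noncomputable def lin (P : σ → K) (i₀ i : σ) : MvPolynomial σ K := X i - C (P i / P i₀) * X i₀

/-- change of coordinates sending the point to a coordinate point -/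
noncomputable def Psi (P : σ → K) (i₀ : σ) : MvPolynomial σ K →ₐ[K] MvPolynomial σ K :=
  aeval (fun i => if i = i₀ then C (P i₀) * X i₀ else X i + C (P i) * X i₀)

/-- inverse change of coordinates -/
noncomputable def Psi' (P : σ → K) (i₀ : σ) : MvPolynomial σ K →ₐ[K] MvPolynomial σ K :=
  aeval (fun i => if i = i₀ then C (P i₀)⁻¹ * X i₀ else lin P i₀ i)

lemma Psi_X (P : σ → K) (i₀ i : σ) : Psi P i₀ (X i) =
    if i = i₀ then C (P i₀) * X i₀ else X i + C (P i) * X i₀ := by simp [Psi]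

lemma Psi'_X (P : σ → K) (i₀ i : σ) : Psi' P i₀ (X i) =
    if i = i₀ then C (P i₀)⁻¹ * X i₀ else lin P i₀ i := by simp [Psi']

lemma Psi'_Psi (P : σ → K) (i₀ : σ) (h0 : P i₀ ≠ 0) (f : MvPolynomial σ K) :
    Psi' P i₀ (Psi P i₀ f) = f := by
  have : (Psi' P i₀).comp (Psi P i₀) = AlgHom.id K _ := by
    apply MvPolynomial.algHom_ext
    intro i
    have hC : ∀ c : K, Psi' P i₀ (C c) = C c := fun c => by simp [Psi']
    rw [AlgHom.comp_apply, Psi_X]
    by_cases hi : i = i₀
    · subst hi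
      rw [if_pos rfl, map_mul, hC, Psi'_X, if_pos rfl, ← mul_assoc, ← C_mul, mul_inv_cancel₀ h0]
      simp
    · rw [if_neg hi, map_add, map_mul, hC, Psi'_X, Psi'_X, if_neg hi, if_pos rfl, lin]
      rw [← mul_assoc, ← C_mul, div_eq_mul_inv]
      simp
  exact congrArg (fun φ => φ f) this

/-- the coordinate point -/
def ev (i₀ : σ) : σ → K := Pi.single i₀ 1

lemma Psi_tr (P : σ → K) (i₀ : σ) (f : MvPolynomial σ K) :
    Psi P i₀ (tr P f) = tr (ev i₀) (Psi P i₀ f) := by
  have : (Psi P i₀).comp (tr P) = (tr (ev i₀)).comp (Psi P i₀) := by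
    apply MvPolynomial.algHom_ext
    intro i
    have hC : ∀ c : K, Psi P i₀ (C c) = C c := fun c => by simp [Psi]
    rw [AlgHom.comp_apply, AlgHom.comp_apply, tr_X, map_add, hC, Psi_X]
    by_cases hi : i = i₀
    · subst hi
      rw [if_pos rfl, map_mul, tr_C, tr_X]
      simp [ev]; ring
    · rw [if_neg hi, map_add, map_mul, tr_C, tr_X, tr_X]
      simp [ev, hi]; ring
  exact congrArg (fun φ => φ f) this

lemma Psi_mem {P : σ → K} (i₀ : σ) {k : ℕ} {f : MvPolynomial σ K}
    (hf : f ∈ idealOfVars σ K ^ k) : Psi P i₀ f ∈ idealOfVars σ K ^ k := by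
  have h1 : (idealOfVars σ K).map (Psi P i₀) ≤ idealOfVars σ K := by
    rw [Ideal.map_span, Ideal.span_le]
    rintro _ ⟨_, ⟨i, rfl⟩, rfl⟩
    rw [Psi_X]
    have hX : ∀ j : σ, (X j : MvPolynomial σ K) ∈ idealOfVars σ K := fun j =>
      Ideal.subset_span ⟨j, rfl⟩
    split_ifs
    · exact Ideal.mul_mem_left _ _ (hX _)
    · exact Ideal.add_mem _ (hX _) (Ideal.mul_mem_left _ _ (hX _))
  have h2 : Psi P i₀ f ∈ (idealOfVars σ K ^ k).map (Psi P i₀) := Ideal.mem_map_of_mem _ hf
  rw [Ideal.map_pow] at h2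
  exact Ideal.pow_right_mono h1 k h2

/-- dehomogenisation -/
noncomputable def dh (i₀ : σ) : MvPolynomial σ K →ₐ[K] MvPolynomial σ K :=
  aeval (fun i => if i = i₀ then 1 else X i)

/-- the map setting `X i₀ = 0` -/
noncomputable def z0 (i₀ : σ) : MvPolynomial σ K →ₐ[K] MvPolynomial σ K :=
  aeval (fun i => if i = i₀ then 0 else X i)

lemma dh_eq (i₀ : σ) (f : MvPolynomial σ K) : z0 i₀ (tr (ev i₀) f) = dh i₀ f := by
  have : (z0 i₀).comp (tr (ev i₀)) = (dh i₀ : MvPolynomial σ K →ₐ[K] MvPolynomial σ K) := by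
    apply MvPolynomial.algHom_ext
    intro i
    rw [AlgHom.comp_apply, tr_X, map_add]
    by_cases hi : i = i₀
    · subst hi; simp [z0, dh, ev]
    · simp [z0, dh, ev, hi]
  exact congrArg (fun φ => φ f) this

lemma z0_mem (i₀ : σ) {k : ℕ} {f : MvPolynomial σ K}
    (hf : f ∈ idealOfVars σ K ^ k) : z0 i₀ f ∈ idealOfVars σ K ^ k := by
  have h1 : (idealOfVars σ K).map (z0 i₀) ≤ idealOfVars σ K := by
    rw [Ideal.map_span, Ideal.span_le]
    rintro _ ⟨_, ⟨i, rfl⟩, rfl⟩
    have h2 : z0 i₀ (X i : MvPolynomial σ K) = if i = i₀ then 0 else X i := by simp [z0]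
    rw [h2]
    split_ifs
    · exact Ideal.zero_mem _
    · exact Ideal.subset_span ⟨i, rfl⟩
  have h2 : z0 i₀ f ∈ (idealOfVars σ K ^ k).map (z0 i₀) := Ideal.mem_map_of_mem _ hf
  rw [Ideal.map_pow] at h2
  exact Ideal.pow_right_mono h1 k h2

lemma dh_monomial (i₀ : σ) (c : σ →₀ ℕ) (α : K) :
    dh i₀ (monomial c α) = monomial (c.erase i₀) α := by
  have h1 : ∀ i : σ, dh i₀ (X i : MvPolynomial σ K) = if i = i₀ then 1 else X i := fun i => by
    simp [dh]
  have h2 : (monomial c α : MvPolynomial σ K) = monomial (c.erase i₀) α * X i₀ ^ c i₀ := by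
    rw [X_pow_eq_monomial, monomial_mul, mul_one, Finsupp.erase_add_single]
  have h3 : ∀ b : σ →₀ ℕ, b i₀ = 0 → dh i₀ (monomial b α) = monomial b α := by
    intro b hb
    rw [monomial_eq, map_mul, Finsupp.prod, map_prod]
    congr 1
    · simp [dh]
    · apply Finset.prod_congr rfl
      intro j hj
      have : j ≠ i₀ := by rintro rfl; exact (Finsupp.mem_support_iff.1 hj) hb
      rw [map_pow, h1, if_neg this]
  rw [h2, map_mul, map_pow, h1, if_pos rfl, one_pow, mul_one, h3 _ (Finsupp.erase_same)]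

/-- exponents of a form vanishing at the coordinate point -/
lemma support_of_ev (i₀ : σ) {k d : ℕ} {F : MvPolynomial σ K} (hF : F.IsHomogeneous d)
    (hk : F ∈ Vi (ev i₀) k) {c : σ →₀ ℕ} (hc : c ∈ F.support) : k ≤ (c.erase i₀).degree := by
  by_contra hlt
  push Not at hlt
  have h1 : dh i₀ F ∈ idealOfVars σ K ^ k := by
    rw [← dh_eq]
    exact z0_mem i₀ hk
  have h2 := (mem_pow_idealOfVars_iff' _ _).1 h1 _ hlt
  rw [F.as_sum, map_sum, coeff_sum] at h2
  rw [Finset.sum_eq_single c] at h2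
  · rw [dh_monomial, coeff_monomial, if_pos rfl] at h2
    exact (mem_support_iff.1 hc) h2
  · intro b hb hbc
    rw [dh_monomial, coeff_monomial, if_neg]
    intro h3
    apply hbc
    have hd : ∀ x : σ →₀ ℕ, x ∈ F.support → x.degree = d := by
      intro x hx
      by_contra h4
      exact (mem_support_iff.1 hx) (hF.coeff_eq_zero h4)
    have h4 : b i₀ = c i₀ := by
      have e1 := hd b hb
      have e2 := hd c hc
      rw [← Finsupp.erase_add_single i₀ b, map_add, Finsupp.degree_single] at e1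
      rw [← Finsupp.erase_add_single i₀ c, map_add, Finsupp.degree_single] at e2
      rw [h3] at e1
      omega
    rw [← Finsupp.erase_add_single i₀ b, ← Finsupp.erase_add_single i₀ c, h3, h4]
  · intro h3; exact absurd hc h3

/-- a form vanishing to order `k` at `P` is a combination of monomials of degree `≥ k` in the
linear forms vanishing at `P` -/
lemma exists_decomp (P : σ → K) (i₀ : σ) (h0 : P i₀ ≠ 0) {k d : ℕ} {f : MvPolynomial σ K}
    (hf : f.IsHomogeneous d) (hk : f ∈ Vi P k) :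
    ∃ F : MvPolynomial σ K, f = Psi' P i₀ F ∧ ∀ c ∈ F.support, k ≤ (c.erase i₀).degree := by
  refine ⟨Psi P i₀ f, (Psi'_Psi P i₀ h0 f).symm, fun c hc => ?_⟩
  refine support_of_ev i₀ (d := d) ?_ ?_ hc
  · have := hf.aeval (S := K) (g := fun i => if i = i₀ then C (P i₀) * X i₀ else X i + C (P i) * X i₀)
      (n := 1) (fun i => by
        split_ifs
        · exact isHomogeneous_C_mul_X _ _
        · exact (isHomogeneous_X _ _).add (isHomogeneous_C_mul_X _ _))
    simpa [Psi] using this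
  · unfold Vi
    rw [Ideal.mem_comap, ← Psi_tr]
    exact Psi_mem i₀ hk

lemma lin_mem_Vi (P : σ → K) (i₀ : σ) (h0 : P i₀ ≠ 0) (i : σ) : lin P i₀ i ∈ Vi P 1 := by
  unfold Vi
  rw [Ideal.mem_comap, pow_one]
  have h1 : tr P (lin P i₀ i) = lin P i₀ i := by
    unfold lin
    rw [map_sub, map_mul, tr_X, tr_C, tr_X]
    have h2 : (C (P i / P i₀) : MvPolynomial σ K) * C (P i₀) = C (P i) := by
      rw [← C_mul, div_mul_cancel₀ _ h0]
    rw [mul_add, h2]; ring
  rw [h1]
  have hX : ∀ j : σ, (X j : MvPolynomial σ K) ∈ idealOfVars σ K := fun j =>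
    Ideal.subset_span ⟨j, rfl⟩
  exact Ideal.sub_mem _ (hX _) (Ideal.mul_mem_left _ _ (hX _))

lemma Psi'_monomial_mem_Vi (P : σ → K) (i₀ : σ) (h0 : P i₀ ≠ 0) (v : σ →₀ ℕ) (β : K) :
    Psi' P i₀ (monomial v β) ∈ Vi P (v.erase i₀).degree := by
  have h2 : (monomial v β : MvPolynomial σ K) = C β * X i₀ ^ v i₀ * monomial (v.erase i₀) 1 := by
    rw [X_pow_eq_monomial, C_mul_monomial, monomial_mul, mul_one, mul_one, add_comm,
      Finsupp.erase_add_single]
  have h3 : ∀ b : σ →₀ ℕ, b i₀ = 0 → Psi' P i₀ (monomial b 1) ∈ Vi P b.degree := by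
    intro b hb
    rw [monomial_eq, map_mul, Finsupp.prod, map_prod, C_1, map_one, one_mul]
    have h4 : b.degree = ∑ i ∈ b.support, b i := rfl
    rw [h4]
    have h5 : ∀ s : Finset σ, s ⊆ b.support →
        ∏ x ∈ s, (Psi' P i₀) (X x ^ b x) ∈ Vi P (∑ i ∈ s, b i) := by
      intro s
      induction s using Finset.induction_on with
      | empty => intro _; simpa using Vi_zero _
      | insert i s hi ih =>
        intro hs
        rw [Finset.prod_insert hi, Finset.sum_insert hi]
        refine Vi_mul ?_ (ih ((Finset.subset_insert _ _).trans hs))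
        have hi' : i ∈ b.support := hs (Finset.mem_insert_self _ _)
        have : i ≠ i₀ := by rintro rfl; exact (Finsupp.mem_support_iff.1 hi') hb
        rw [map_pow, Psi'_X, if_neg this]
        have := Vi_pow (lin_mem_Vi P i₀ h0 i) (b i)
        rwa [mul_one] at this
    exact h5 _ subset_rfl
  rw [h2, map_mul]
  exact Ideal.mul_mem_left _ _ (h3 _ (Finsupp.erase_same))

end field

section root

variable {σ : Type} [DecidableEq σ] [Fintype σ] {K : Type*} [Field K] [IsAlgClosed K] (p : ℕ)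
  [Fact p.Prime] [CharP K p] (e : ℕ)

/-- every component of a form vanishing to order `k` at a point vanishes to order about
`(k - N (q - 1)) / q`, where `N + 1` is the number of variables -/
lemma rt_mem_Vi {P : σ → K} (hP : P ≠ 0) {a : σ →₀ ℕ} (ha : ∀ i, a i < p ^ e)
    {f : MvPolynomial σ K} {d k k' : ℕ} (hf : f.IsHomogeneous d) (hk : f ∈ Vi P k)
    (hk' : ∀ j < k', p ^ e * j + (Fintype.card σ - 1) * (p ^ e - 1) < k) :
    rt p e a f ∈ Vi P k' := by
  obtain ⟨i₀, h0⟩ : ∃ i, P i ≠ 0 := by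
    by_contra h
    push Not at h
    exact hP (funext h)
  obtain ⟨F, hF, hsupp⟩ := exists_decomp P i₀ h0 hf hk
  rw [hF, F.as_sum, map_sum, rt_sum]
  apply Ideal.sum_mem
  intro c hc
  obtain ⟨β, hβ⟩ := monomial_split p e c (coeff c F)
  rw [hβ, map_mul, map_pow, rt_pow_mul p e ha]
  apply Ideal.mul_mem_right
  refine Vi_mono ?_ (Psi'_monomial_mem_Vi P i₀ h0 (dv (p ^ e) c) β)
  by_contra hlt
  push Not at hlt
  have h1 := hk' _ hlt
  have h2 := hsupp c hc
  have h3 : (c.erase i₀).degree ≤ p ^ e * ((dv (p ^ e) c).erase i₀).degree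
      + (Fintype.card σ - 1) * (p ^ e - 1) := by
    have hsum : ∀ b : σ →₀ ℕ, (b.erase i₀).degree = ∑ i ∈ Finset.univ.erase i₀, b i := by
      intro b
      have h4 : (b.erase i₀).degree = ∑ i, (b.erase i₀) i := by
        rw [Finsupp.degree_eq_sum]
      rw [h4, ← Finset.add_sum_erase _ _ (Finset.mem_univ i₀), Finsupp.erase_same, zero_add]
      apply Finset.sum_congr rfl
      intro i hi
      rw [Finsupp.erase_ne (Finset.ne_of_mem_erase hi)]
    rw [hsum, hsum, Finset.mul_sum]
    have h5 : (Fintype.card σ - 1) * (p ^ e - 1) = ∑ i ∈ Finset.univ.erase i₀, (p ^ e - 1) := by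
      rw [Finset.sum_const, Finset.card_erase_of_mem (Finset.mem_univ i₀), Finset.card_univ,
        smul_eq_mul]
    rw [h5, ← Finset.sum_add_distrib]
    apply Finset.sum_le_sum
    intro i _
    rw [dv_apply]
    have h6 := Nat.div_add_mod (c i) (p ^ e)
    have h7 := Nat.mod_lt (c i) (q_pos p e)
    omega
  omega

end root

end Pool.Agent.Helper50.Dem
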