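import Mathlib
import Pool.Agent.Helper50.Dem.Decomp

/-!
# The main inequality in characteristic `p`
-/

set_option autoImplicit false

open MvPolynomial

namespace Pool.Agent.Helper50.Dem

variable {σ : Type} {K : Type*} [Field K] [IsAlgClosed K] (p : ℕ) [Fact p.Prime] [CharP K p]

omit [IsAlgClosed K] in
lemma coeff_pow_q_of_not_dvd (e : ℕ) (g : MvPolynomial σ K) (u : σ →₀ ℕ) (i : σ)
    (hi : ¬ p ^ e ∣ u i) : coeff u (g ^ p ^ e) = 0 := by
  classical
  induction g using MvPolynomial.induction_on' with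
  | monomial v α =>
    rw [monomial_pow, coeff_monomial, if_neg]
    rintro rfl
    apply hi
    simp
  | add f g hf hg => rw [add_pow_char_pow, coeff_add, hf, hg, add_zero]

/-- a form all of whose derivatives vanish is a `p`-th power -/
lemma eq_pow_of_pderiv {f : MvPolynomial σ K} (h : ∀ i, pderiv i f = 0) :
    f = (rt p 1 0 f) ^ p ^ 1 := by
  classical
  ext u
  by_cases hu : ∀ i, p ^ 1 ∣ u i
  · have h1 : u = p ^ 1 • dv (p ^ 1) u := by
      ext i
      simp only [Finsupp.coe_smul, Pi.smul_apply, smul_eq_mul, dv_apply]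
      exact (Nat.mul_div_cancel' (hu i)).symm
    rw [h1, coeff_pow_q, rt_spec, add_zero]
  · push Not at hu
    obtain ⟨i, hi⟩ := hu
    rw [coeff_pow_q_of_not_dvd p 1 _ u i hi]
    have h1 := congrArg (coeff (u - Finsupp.single i 1)) (h i)
    have hui : u i ≠ 0 := by
      intro h2; apply hi; rw [h2]; exact dvd_zero _
    have h2 : u - Finsupp.single i 1 + Finsupp.single i 1 = u := by
      ext j
      by_cases hj : i = j
      · subst hj; simp; omega
      · simp [Finsupp.single_eq_of_ne (Ne.symm hj)]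
    rw [coeff_pderiv, h2, coeff_zero] at h1
    have h3 : (((u - Finsupp.single i 1 : σ →₀ ℕ) i : ℕ) : K) + 1 = ((u i : ℕ) : K) := by
      have : (u - Finsupp.single i 1 : σ →₀ ℕ) i + 1 = u i := by simp; omega
      rw [← this]; push_cast; ring
    rw [h3] at h1
    rcases mul_eq_zero.1 h1 with h4 | h4
    · exact h4
    · exfalso
      apply hi
      rw [pow_one]
      exact (CharP.cast_eq_zero_iff K p _).1 h4

include p in
/-- lowering the degree by one costs at most one order of vanishing, everywhere -/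
lemma exists_lower_one : ∀ (d : ℕ) (f : MvPolynomial σ K), f.IsHomogeneous (d + 1) → f ≠ 0 →
    ∃ h : MvPolynomial σ K, h.IsHomogeneous d ∧ h ≠ 0 ∧
      ∀ (P : σ → K) (k : ℕ), f ∈ Vi P (k + 1) → h ∈ Vi P k := by
  classical
  intro d
  induction d using Nat.strong_induction_on with
  | _ d ih =>
    intro f hf h0
    by_cases hder : ∃ i, pderiv i f ≠ 0
    · obtain ⟨i, hi⟩ := hder
      exact ⟨pderiv i f, hf.pderiv, hi, fun P k hk => pderiv_mem_Vi hk i⟩
    · push Not at hder
      have hpow := eq_pow_of_pderiv p hder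
      set g := rt p 1 0 f with hg
      have hp : 2 ≤ p := (Fact.out : p.Prime).two_le
      have hg0 : g ≠ 0 := by
        intro h1
        rw [h1, zero_pow (q_pos p 1).ne'] at hpow
        exact h0 hpow
      obtain ⟨c, hc⟩ := ne_zero_iff.1 hg0
      have hcd : p * c.degree = d + 1 := by
        have h1 : coeff (p ^ 1 • c) f ≠ 0 := by
          rw [hpow, coeff_pow_q]; exact pow_ne_zero _ hc
        have h2 : (p ^ 1 • c).degree = d + 1 := by
          by_contra h3
          exact h1 (hf.coeff_eq_zero h3)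
        rwa [degree_smul', pow_one] at h2
      obtain ⟨n, hn⟩ : ∃ n, c.degree = n + 1 := by
        refine ⟨c.degree - 1, ?_⟩
        have : c.degree ≠ 0 := by
          intro h1; rw [h1] at hcd; omega
        omega
      rw [hn] at hcd
      have hgh : g.IsHomogeneous (n + 1) := by
        refine rt_isHomogeneous p 1 (d := d + 1) hf ?_
        rw [pow_one, map_zero, add_zero, hcd]
      have hnd : n < d := by nlinarith
      obtain ⟨h, hh, hh0, hhV⟩ := ih n hnd g hgh hg0
      refine ⟨h * g ^ (p - 1), ?_, mul_ne_zero hh0 (pow_ne_zero _ hg0), ?_⟩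
      · have h1 := hh.mul (hgh.pow (p - 1))
        have h2 : n + (n + 1) * (p - 1) = d := by
          obtain ⟨r, rfl⟩ : ∃ r, p = r + 2 := ⟨p - 2, by omega⟩
          have : r + 2 - 1 = r + 1 := by omega
          rw [this]
          nlinarith
        rwa [h2] at h1
      · intro P k hk
        have hgV : g ∈ Vi P (k / p + 1) := by
          rw [hpow] at hk
          refine mem_Vi_of_pow p 1 hk ?_
          intro j hj
          rw [pow_one]
          have h1 : j ≤ k / p := by omega
          have h2 : p * j ≤ p * (k / p) := Nat.mul_le_mul_left _ h1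
          have h3 := Nat.mul_div_le k p
          omega
        have h1 := Vi_mul (hhV P _ hgV) (Vi_pow hgV (p - 1))
        refine Vi_mono ?_ h1
        have h2 := Nat.div_add_mod k p
        have h3 := Nat.mod_lt k (show 0 < p by omega)
        obtain ⟨r, hr⟩ : ∃ r, p = r + 1 := ⟨p - 1, by omega⟩
        have h4 : p - 1 = r := by omega
        rw [h4]
        have h5 : k / p + r * (k / p + 1) = p * (k / p) + r := by
          rw [hr]; ring
        rw [h5]
        omega

include p in
lemma exists_lower : ∀ (n d : ℕ) (f : MvPolynomial σ K), f.IsHomogeneous (d + n) → f ≠ 0 →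
    ∃ h : MvPolynomial σ K, h.IsHomogeneous d ∧ h ≠ 0 ∧
      ∀ (P : σ → K) (k : ℕ), f ∈ Vi P (k + n) → h ∈ Vi P k := by
  intro n
  induction n with
  | zero => intro d f hf h0; exact ⟨f, hf, h0, fun P k h => h⟩
  | succ n ih =>
    intro d f hf h0
    obtain ⟨g, hg, hg0, hgV⟩ := exists_lower_one p (d + n) f hf h0
    obtain ⟨h, hh, hh0, hhV⟩ := ih d g hg hg0
    exact ⟨h, hh, hh0, fun P k hk => hhV P k (hgV P (k + n) hk)⟩

variable [DecidableEq σ] [Fintype σ]

/-- the main step: from order `q (μ + M)` to order `μ`, with `M + 2` variables -/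
theorem main_step (e : ℕ) {M : ℕ} (hM : Fintype.card σ = M + 2) {ι : Type*} [Nonempty ι]
    (P : ι → σ → K) (hP : ∀ i, P i ≠ 0) (μ : ι → ℕ) {f : MvPolynomial σ K} {d : ℕ}
    (hf : f.IsHomogeneous d) (h0 : f ≠ 0) (hk : ∀ i, f ∈ Vi (P i) (p ^ e * (μ i + M))) :
    ∃ (n : ℕ) (g : MvPolynomial σ K), g.IsHomogeneous n ∧ g ≠ 0 ∧ (∀ i, g ∈ Vi (P i) (μ i)) ∧
      p ^ e * (n + M) ≤ d := by
  classical
  have hq := q_pos p e
  set q := p ^ e with hqdef
  have hne : f.support.Nonempty := by
    rw [Finset.nonempty_iff_ne_empty]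
    intro h1
    exact h0 (support_eq_empty.1 h1)
  obtain ⟨u, hu, hmax⟩ := Finset.exists_max_image f.support (fun u => (md q u).degree) hne
  set a := md q u with ha
  have haq : ∀ i, a i < p ^ e := fun i => by
    rw [ha, md_apply]; exact Nat.mod_lt _ hq
  set g := rt p e a f with hg
  have hg0 : g ≠ 0 := rt_ne_zero p e hu
  have hud : u.degree = d := by
    by_contra h3
    exact (mem_support_iff.1 hu) (hf.coeff_eq_zero h3)
  have hn0 : q * (dv q u).degree + a.degree = d := by
    rw [← hud]
    conv_rhs => rw [← dv_md q u]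
    rw [map_add, degree_smul']
  have hgh : g.IsHomogeneous (dv q u).degree := rt_isHomogeneous p e hf hn0
  set n₀ := (dv q u).degree with hn₀
  by_cases hs : q * M ≤ a.degree
  · refine ⟨n₀, g, hgh, hg0, fun i => ?_, ?_⟩
    · refine rt_mem_Vi p e (hP i) haq hf (hk i) ?_
      intro j hj
      rw [hM]
      obtain ⟨q', hq'⟩ : ∃ q', q = q' + 1 := ⟨q - 1, by omega⟩
      rw [← hqdef, hq']
      have h1 : M + 2 - 1 = M + 1 := by omega
      rw [h1, Nat.add_sub_cancel]
      obtain ⟨t, ht⟩ : ∃ t, μ i = j + 1 + t := ⟨μ i - (j + 1), by omega⟩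
      rw [ht]
      nlinarith
    · rw [Nat.mul_add]; omega
  · push Not at hs
    set j := a.degree / q with hj
    have hj1 := Nat.div_add_mod a.degree q
    have hj2 := Nat.mod_lt a.degree hq
    rw [← hj] at hj1
    have hjM : j < M := by
      by_contra h1
      push Not at h1
      have := Nat.mul_le_mul_left q h1
      omega
    have hgV : ∀ i, g ∈ Vi (P i) (μ i + (M - j)) := by
      intro i
      refine rt_mem_Vi_top p e haq hmax (hk i) ?_
      intro t ht
      have h1 : t + 1 + j ≤ μ i + M := by omega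
      have h2 := Nat.mul_le_mul_left q h1
      rw [Nat.mul_add, Nat.mul_add, Nat.mul_one] at h2
      rw [← hqdef]
      omega
    obtain ⟨i₀⟩ := ‹Nonempty ι›
    have hdeg := order_le_degree hgh hg0 _ (hgV i₀)
    obtain ⟨n, hn⟩ : ∃ n, n₀ = n + (M - j) := ⟨n₀ - (M - j), by omega⟩
    rw [hn] at hgh
    obtain ⟨h, hh, hh0, hhV⟩ := exists_lower p (M - j) n g hgh hg0
    refine ⟨n, h, hh, hh0, fun i => hhV _ _ (hgV i), ?_⟩
    have h3 : n + M = n₀ + j := by omega
    rw [h3, Nat.mul_add]
    omega

include p in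
/-- the main inequality in characteristic `p`: if `f` is a form of degree `d` vanishing to order at
least `ρ i` at `P i`, and `(μ i + M) B ≤ ρ i A`, then some form of degree `n` with
`(n + M) B ≤ A d` vanishes to order at least `μ i` at `P i`. -/
theorem main_p {M : ℕ} (hM : Fintype.card σ = M + 2) {ι : Type*} [Nonempty ι]
    (P : ι → σ → K) (hP : ∀ i, P i ≠ 0) (μ ρ : ι → ℕ) (A B : ℕ) (hB : 0 < B)
    (hρ : ∀ i, (μ i + M) * B ≤ ρ i * A) {f : MvPolynomial σ K} {d : ℕ}
    (hf : f.IsHomogeneous d) (h0 : f ≠ 0) (hk : ∀ i, f ∈ Vi (P i) (ρ i)) :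
    ∃ (n : ℕ) (g : MvPolynomial σ K), g.IsHomogeneous n ∧ g ≠ 0 ∧ (∀ i, g ∈ Vi (P i) (μ i)) ∧
      (n + M) * B ≤ A * d := by
  have hp : 1 < p := (Fact.out : p.Prime).one_lt
  have hq := Nat.lt_pow_self (n := B * d) hp
  set e := B * d with he
  set q := p ^ e with hqd
  set j := q * A / B + 1 with hj
  have hjB : q * A < j * B := by
    rw [hj]
    have h1 := Nat.div_add_mod (q * A) B
    have h2 := Nat.mod_lt (q * A) hB
    have h3 : (q * A / B + 1) * B = B * (q * A / B) + B := by ring
    omega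
  have hjB' : j * B ≤ q * A + B := by
    rw [hj]
    have h1 := Nat.div_add_mod (q * A) B
    have h3 : (q * A / B + 1) * B = B * (q * A / B) + B := by ring
    omega
  obtain ⟨n, g, hg, hg0, hgV, hn⟩ := main_step p e hM P hP μ (hf.pow j) (pow_ne_zero j h0)
    (fun i => by
      refine Vi_mono ?_ (Vi_pow (hk i) j)
      have h1 := hρ i
      have h2 : q * ((μ i + M) * B) ≤ q * (ρ i * A) := Nat.mul_le_mul_left _ h1
      have h3 : (q * A) * ρ i ≤ (j * B) * ρ i := Nat.mul_le_mul_right _ hjB.le
      have h4 : (p ^ e * (μ i + M)) * B ≤ (j * ρ i) * B := by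
        rw [← hqd]; nlinarith
      exact Nat.le_of_mul_le_mul_right h4 hB)
  refine ⟨n, g, hg, hg0, hgV, ?_⟩
  rw [← hqd] at hn
  have h1 : (q * (n + M)) * B ≤ (d * j) * B := Nat.mul_le_mul_right _ hn
  have h2 : d * (j * B) ≤ d * (q * A + B) := Nat.mul_le_mul_left _ hjB'
  have h3 : q * ((n + M) * B) < q * (A * d + 1) := by
    calc q * ((n + M) * B) = (q * (n + M)) * B := by ring
      _ ≤ (d * j) * B := h1
      _ = d * (j * B) := by ring
      _ ≤ d * (q * A + B) := h2
      _ = q * (A * d) + B * d := by ring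
      _ < q * (A * d) + q := by omega
      _ = q * (A * d + 1) := by ring
  have h4 := Nat.lt_of_mul_lt_mul_left h3
  omega

end Pool.Agent.Helper50.Dem
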