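import Mathlib
import Pool.Agent.Helper50.Dem.MainP

/-!
# Reduction to positive characteristic
-/

set_option autoImplicit false

open MvPolynomial

namespace Pool.Agent.Helper50.Dem

/-- the integers form a Jacobson ring -/
lemma isJacobsonRing_int : IsJacobsonRing ℤ := by
  rw [isJacobsonRing_iff_prime_eq]
  intro P hP
  by_cases h : P = ⊥
  · subst h
    rw [eq_bot_iff]
    intro x hx
    rw [Ideal.mem_jacobson_bot] at hx
    have h1 := hx x
    rw [Int.isUnit_iff] at h1
    have h2 : x * x = 0 ∨ x * x < 0 := by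
      rcases h1 with h1 | h1
      · left; linarith
      · right; linarith
    rcases h2 with h2 | h2
    · simpa using h2
    · exfalso; nlinarith [mul_self_nonneg x]
  · have hmax : P.IsMaximal := IsPrime.to_maximal_ideal h
    exact Ideal.jacobson_eq_self_of_isMaximal

/-- a field finitely generated over the integers has positive characteristic -/
lemma exists_charP (F : Type*) [Field F] [Algebra.FiniteType ℤ F] :
    ∃ p : ℕ, p.Prime ∧ CharP F p := by
  obtain ⟨p, hp⟩ := CharP.exists F
  rcases CharP.char_is_prime_or_zero F p with h | h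
  · exact ⟨p, h, hp⟩
  · exfalso
    subst h
    have : CharZero F := CharP.charP_to_charZero F
    have hJ := isJacobsonRing_int
    have hfin : Module.Finite ℤ F := finite_of_finite_type_of_isJacobsonRing ℤ F
    have hint : Algebra.IsIntegral ℤ F := inferInstance
    have hinj : Function.Injective (algebraMap ℤ F) := by
      intro a b hab
      simpa using hab
    have h1 : IsField ℤ := isField_of_isIntegral_of_isField hinj (Field.toIsField F)
    obtain ⟨b, hb⟩ := h1.mul_inv_cancel (show (2 : ℤ) ≠ 0 by norm_num)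
    omega

variable {σ : Type} [DecidableEq σ] [Fintype σ]

/-- exponents of degree `n` -/
noncomputable def Ex (σ : Type) [DecidableEq σ] [Fintype σ] (n : ℕ) : Finset (σ →₀ ℕ) :=
  (Finset.univ : Finset σ).finsuppAntidiag n

lemma mem_Ex {n : ℕ} {c : σ →₀ ℕ} : c ∈ Ex σ n ↔ c.degree = n := by
  unfold Ex
  rw [Finset.mem_finsuppAntidiag]
  rw [Finsupp.degree_eq_sum]
  constructor
  · rintro ⟨h, _⟩; exact h
  · intro h; exact ⟨h, Finset.subset_univ _⟩

/-- exponents of degree `< n` -/
noncomputable def Bd (σ : Type) [DecidableEq σ] [Fintype σ] (n : ℕ) : Finset (σ →₀ ℕ) :=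
  (Finset.range n).biUnion (fun t => Ex σ t)

lemma mem_Bd {n : ℕ} {c : σ →₀ ℕ} : c ∈ Bd σ n ↔ c.degree < n := by
  unfold Bd
  rw [Finset.mem_biUnion]
  constructor
  · rintro ⟨t, ht, hc⟩
    rw [mem_Ex] at hc
    rw [hc]; exact Finset.mem_range.1 ht
  · intro h
    exact ⟨_, Finset.mem_range.2 h, mem_Ex.2 rfl⟩

lemma form_eq_sum {K : Type*} [CommRing K] {D : ℕ} {g : MvPolynomial σ K}
    (hg : g.IsHomogeneous D) : g = ∑ c ∈ Ex σ D, C (coeff c g) * monomial c 1 := by
  ext u
  rw [coeff_sum]
  simp only [coeff_C_mul, coeff_monomial]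
  by_cases hu : u.degree = D
  · rw [Finset.sum_eq_single u]
    · simp
    · intro b _ hb; simp [hb]
    · intro h; exact absurd (mem_Ex.2 hu) h
  · rw [hg.coeff_eq_zero hu, Finset.sum_eq_zero]
    intro b hb
    have : b ≠ u := by rintro rfl; exact hu (mem_Ex.1 hb)
    simp [this]

lemma coeff_tr_form {K : Type*} [CommRing K] {D : ℕ} {g : MvPolynomial σ K}
    (hg : g.IsHomogeneous D) (P : σ → K) (b : σ →₀ ℕ) :
    coeff b (tr P g) = ∑ c ∈ Ex σ D, coeff c g * coeff b (tr P (monomial c 1)) := by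
  conv_lhs => rw [form_eq_sum hg]
  rw [map_sum, coeff_sum]
  apply Finset.sum_congr rfl
  intro c _
  rw [map_mul, tr_C, coeff_C_mul]

/-- no form of degree `D` vanishes to order `μ i` at all `P i` -/
def NoForm {ι : Type*} {K : Type*} [CommRing K] (P : ι → σ → K) (μ : ι → ℕ) (D : ℕ) : Prop :=
  ∀ g : MvPolynomial σ K, g.IsHomogeneous D → (∀ i, g ∈ Vi (P i) (μ i)) → g = 0

/-- if no form exists, the linear system has a left inverse -/
lemma exists_leftInv {ι : Type*} [Fintype ι] {K : Type*} [Field K] (P : ι → σ → K) (μ : ι → ℕ)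
    (D : ℕ) (h : NoForm P μ D) :
    ∃ γ : (σ →₀ ℕ) → (Σ _ : ι, σ →₀ ℕ) → K, ∀ c₀ ∈ Ex σ D, ∀ c ∈ Ex σ D,
      ∑ r ∈ (Finset.univ : Finset ι).sigma (fun i => Bd σ (μ i)),
        γ c₀ r * coeff r.2 (tr (P r.1) (monomial c 1)) = if c = c₀ then 1 else 0 := by
  classical
  set R := (Finset.univ : Finset ι).sigma (fun i => Bd σ (μ i)) with hR
  set T : (Ex σ D → K) →ₗ[K] (R → K) :=
    { toFun := fun x r => ∑ c : Ex σ D, x c * coeff r.1.2 (tr (P r.1.1) (monomial c.1 1))
      map_add' := fun x y => by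
        funext r
        simp only [Pi.add_apply, add_mul, Finset.sum_add_distrib]
      map_smul' := fun a x => by
        funext r
        simp only [Pi.smul_apply, smul_eq_mul, RingHom.id_apply, Finset.mul_sum, mul_assoc] } with hT
  have hTa : ∀ x r, T x r = ∑ c : Ex σ D, x c * coeff r.1.2 (tr (P r.1.1) (monomial c.1 1)) :=
    fun x r => rfl
  have hker : LinearMap.ker T = ⊥ := by
    rw [LinearMap.ker_eq_bot']
    intro x hx
    set g : MvPolynomial σ K := ∑ c : Ex σ D, C (x c) * monomial c.1 1 with hg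
    have hgh : g.IsHomogeneous D := by
      rw [hg]
      apply IsHomogeneous.sum
      intro c _
      rw [C_mul_monomial, mul_one]
      exact isHomogeneous_monomial _ (mem_Ex.1 c.2)
    have hgc : ∀ c : Ex σ D, coeff c.1 g = x c := by
      intro c
      rw [hg, coeff_sum]
      simp only [coeff_C_mul, coeff_monomial]
      rw [Finset.sum_eq_single c]
      · simp
      · intro b _ hb
        have : b.1 ≠ c.1 := fun h1 => hb (Subtype.ext h1)
        simp [this]
      · intro h1; exact absurd (Finset.mem_univ _) h1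
    have hg0 : g = 0 := by
      apply h g hgh
      intro i
      rw [mem_Vi]
      intro u hu
      have hr : (⟨i, u⟩ : Σ _ : ι, σ →₀ ℕ) ∈ R := by
        rw [hR, Finset.mem_sigma]
        exact ⟨Finset.mem_univ _, mem_Bd.2 hu⟩
      have h1 := congrFun hx ⟨⟨i, u⟩, hr⟩
      rw [hTa] at h1
      rw [coeff_tr_form hgh, ← Finset.sum_coe_sort]
      simp only [hgc]
      exact h1
    funext c
    rw [← hgc c, hg0, coeff_zero]; rfl
  obtain ⟨G, hG⟩ := LinearMap.exists_leftInverse_of_injective T hker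
  refine ⟨fun c r => if hc : c ∈ Ex σ D then if hr : r ∈ R then
    G (Pi.single ⟨r, hr⟩ 1) ⟨c, hc⟩ else 0 else 0, ?_⟩
  intro c₀ hc₀ c hc
  have h1 : G (T (Pi.single ⟨c, hc⟩ 1)) = Pi.single ⟨c, hc⟩ 1 := by
    have := congrArg (fun φ => φ (Pi.single ⟨c, hc⟩ 1)) hG
    simpa using this
  have h2 : T (Pi.single ⟨c, hc⟩ 1) = ∑ r : R,
      (coeff r.1.2 (tr (P r.1.1) (monomial c 1))) • (Pi.single r (1 : K) : R → K) := by
    funext r
    rw [hTa, Finset.sum_apply, Finset.sum_eq_single ⟨c, hc⟩, Finset.sum_eq_single r]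
    · simp
    · intro b _ hb
      simp [Pi.single_apply, Ne.symm hb]
    · intro h3; exact absurd (Finset.mem_univ _) h3
    · intro b _ hb
      simp [Pi.single_apply, hb]
    · intro h3; exact absurd (Finset.mem_univ _) h3
  rw [h2, map_sum] at h1
  have h3 := congrFun h1 ⟨c₀, hc₀⟩
  rw [Finset.sum_apply] at h3
  simp only [map_smul, Pi.smul_apply, smul_eq_mul] at h3
  rw [← Finset.sum_coe_sort R]
  simp only [dif_pos hc₀]
  calc _ = ∑ r : R, (coeff r.1.2 (tr (P r.1.1) (monomial c 1))) *
        G (Pi.single r 1) ⟨c₀, hc₀⟩ := by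
        apply Finset.sum_congr rfl
        intro r _
        rw [dif_pos r.2, mul_comm]
    _ = _ := by
        rw [h3, Pi.single_apply]
        by_cases h4 : c = c₀
        · subst h4; simp
        · have : (⟨c₀, hc₀⟩ : Ex σ D) ≠ ⟨c, hc⟩ := fun h5 => h4 (congrArg Subtype.val h5).symm
          rw [if_neg this, if_neg h4]

end Pool.Agent.Helper50.Dem
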