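import Mathlib
import Pool.Agent.Helper50.Dem.Reduce

/-!
# The main inequality over every field
-/

set_option autoImplicit false

open MvPolynomial

namespace Pool.Agent.Helper50.Dem

universe u

variable {σ : Type} [DecidableEq σ] [Fintype σ]

/-- specialisation of a configuration to positive characteristic -/
theorem specialise {ι : Type*} [Fintype ι] {K : Type u} [Field K] (P : ι → σ → K)
    (hP : ∀ i, P i ≠ 0) (μ ρ : ι → ℕ) (D d : ℕ) (f : MvPolynomial σ K) (hf : f.IsHomogeneous d)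
    (h0 : f ≠ 0) (hk : ∀ i, f ∈ Vi (P i) (ρ i)) :
    ∃ (L : Type u) (_ : Field L) (_ : IsAlgClosed L) (p : ℕ) (_ : Fact p.Prime) (_ : CharP L p)
      (P' : ι → σ → L) (f' : MvPolynomial σ L), (∀ i, P' i ≠ 0) ∧ f'.IsHomogeneous d ∧ f' ≠ 0 ∧
        (∀ i, f' ∈ Vi (P' i) (ρ i)) ∧ (NoForm P μ D → NoForm P' μ D) := by
  classical
  set R := (Finset.univ : Finset ι).sigma (fun i => Bd σ (μ i)) with hR
  -- the left inverse matrix
  obtain ⟨γ, hγ⟩ : ∃ γ : (σ →₀ ℕ) → (Σ _ : ι, σ →₀ ℕ) → K, NoForm P μ D →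
      ∀ c₀ ∈ Ex σ D, ∀ c ∈ Ex σ D, ∑ r ∈ R,
        γ c₀ r * coeff r.2 (tr (P r.1) (monomial c 1)) = if c = c₀ then 1 else 0 := by
    by_cases h : NoForm P μ D
    · obtain ⟨γ, hγ⟩ := exists_leftInv P μ D h
      exact ⟨γ, fun _ => hγ⟩
    · exact ⟨fun _ _ => 0, fun h' => absurd h' h⟩
  -- the finitely generated subring
  set S : Finset K := ((Finset.univ : Finset (ι × σ)).image (fun x => P x.1 x.2)) ∪
    ((Finset.univ : Finset (ι × σ)).image (fun x => (P x.1 x.2)⁻¹)) ∪
    (f.support.image (fun u => coeff u f)) ∪ (f.support.image (fun u => (coeff u f)⁻¹)) ∪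
    ((Ex σ D ×ˢ R).image (fun x => γ x.1 x.2)) with hS
  set A := Algebra.adjoin ℤ (S : Set K) with hA
  have hsub : ∀ x ∈ S, x ∈ A := fun x hx => Algebra.subset_adjoin hx
  have hPA : ∀ i s, P i s ∈ A := fun i s => hsub _ (by
    rw [hS]; simp only [Finset.mem_union, Finset.mem_image]
    left; left; left; left; exact ⟨(i, s), Finset.mem_univ _, rfl⟩)
  have hPA' : ∀ i s, (P i s)⁻¹ ∈ A := fun i s => hsub _ (by
    rw [hS]; simp only [Finset.mem_union, Finset.mem_image]
    left; left; left; right; exact ⟨(i, s), Finset.mem_univ _, rfl⟩)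
  have hfA : ∀ u ∈ f.support, coeff u f ∈ A := fun u hu => hsub _ (by
    rw [hS]; simp only [Finset.mem_union, Finset.mem_image]
    left; left; right; exact ⟨u, hu, rfl⟩)
  have hfA' : ∀ u ∈ f.support, (coeff u f)⁻¹ ∈ A := fun u hu => hsub _ (by
    rw [hS]; simp only [Finset.mem_union, Finset.mem_image]
    left; right; exact ⟨u, hu, rfl⟩)
  have hγA : ∀ c₀ ∈ Ex σ D, ∀ r ∈ R, γ c₀ r ∈ A := fun c₀ hc r hr => hsub _ (by
    rw [hS]; simp only [Finset.mem_union, Finset.mem_image]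
    right; exact ⟨(c₀, r), Finset.mem_product.2 ⟨hc, hr⟩, rfl⟩)
  have hAft : Algebra.FiniteType ℤ A := by
    rw [← Subalgebra.fg_iff_finiteType]
    exact ⟨S, rfl⟩
  obtain ⟨𝔫, h𝔫⟩ := Ideal.exists_maximal A
  let F := A ⧸ 𝔫
  let _ : Field F := Ideal.Quotient.field 𝔫
  have hFft0 := Algebra.FiniteType.of_surjective (Ideal.Quotient.mkₐ ℤ 𝔫)
    Ideal.Quotient.mk_surjective
  have hFft : @Algebra.FiniteType ℤ F _ _ (Ring.toIntAlgebra F) := by
    convert hFft0
    exact Subsingleton.elim _ _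
  obtain ⟨p, hp, hchar⟩ := @exists_charP F _ hFft
  let L := AlgebraicClosure F
  have hLp : CharP L p := charP_of_injective_algebraMap (algebraMap F L).injective p
  set θ : A →+* L := (algebraMap F L).comp (Ideal.Quotient.mk 𝔫) with hθ
  have hval : Function.Injective (algebraMap A K) := Subtype.val_injective
  -- the points and the form over `A`
  set PA : ι → σ → A := fun i s => ⟨P i s, hPA i s⟩ with hPAdef
  have hPAval : ∀ i, (fun s => algebraMap A K (PA i s)) = P i := fun i => rfl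
  set fA : MvPolynomial σ A := ∑ u ∈ f.support.attach, monomial u.1 ⟨coeff u.1 f, hfA u.1 u.2⟩
    with hfAdef
  have hfAmap : map (algebraMap A K) fA = f := by
    rw [hfAdef, map_sum]
    conv_rhs => rw [f.as_sum]
    rw [← Finset.sum_attach f.support (fun v => monomial v (coeff v f))]
    apply Finset.sum_congr rfl
    intro u _
    rw [map_monomial]
    rfl
  have hfAh : fA.IsHomogeneous d := by
    apply IsHomogeneous.of_map (f := algebraMap A K) hval
    rw [hfAmap]; exact hf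
  have hunit : ∀ (x : K) (hx : x ∈ A) (_ : x⁻¹ ∈ A), x ≠ 0 → θ ⟨x, hx⟩ ≠ 0 := by
    intro x hx hx' hx0 h1
    have h2 : (⟨x, hx⟩ : A) * ⟨x⁻¹, hx'⟩ = 1 := Subtype.ext (mul_inv_cancel₀ hx0)
    have h3 := congrArg θ h2
    rw [map_mul, h1, zero_mul, map_one] at h3
    exact zero_ne_one h3
  refine ⟨L, inferInstance, inferInstance, p, ⟨hp⟩, hLp, fun i s => θ (PA i s), map θ fA,
    ?_, hfAh.map θ, ?_, ?_, ?_⟩
  · intro i h1
    obtain ⟨s, hs⟩ : ∃ s, P i s ≠ 0 := by
      by_contra h2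
      push Not at h2
      exact hP i (funext h2)
    exact hunit (P i s) (hPA i s) (hPA' i s) hs (congrFun h1 s)
  · intro h1
    obtain ⟨u, hu⟩ := ne_zero_iff.1 h0
    have hus := mem_support_iff.2 hu
    have h2 : coeff u fA = ⟨coeff u f, hfA u hus⟩ := by
      apply hval
      rw [← coeff_map, hfAmap]; rfl
    have h3 := congrArg (coeff u) h1
    rw [coeff_map, h2, coeff_zero] at h3
    exact hunit _ (hfA u hus) (hfA' u hus) hu h3
  · intro i
    apply map_mem_Vi θ
    apply mem_Vi_of_map (algebraMap A K) hval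
    rw [hfAmap]
    exact hk i
  · intro hno g hg hgV
    have hγ' := hγ hno
    -- the system over `L`
    have hsys : ∀ r ∈ R, ∑ c ∈ Ex σ D, coeff c g *
        θ (coeff r.2 (tr (PA r.1) (monomial c 1))) = 0 := by
      intro r hr
      rw [hR, Finset.mem_sigma] at hr
      have h1 := (mem_Vi.1 (hgV r.1)) r.2 (mem_Bd.1 hr.2)
      rw [coeff_tr_form hg] at h1
      rw [← h1]
      apply Finset.sum_congr rfl
      intro c _
      congr 1
      rw [← coeff_map, map_tr, map_monomial, map_one]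
    have hA1 : ∀ c₀ (hc₀ : c₀ ∈ Ex σ D), ∀ c ∈ Ex σ D,
        ∑ r ∈ R.attach, (⟨γ c₀ r.1, hγA c₀ hc₀ r.1 r.2⟩ : A) *
          coeff r.1.2 (tr (PA r.1.1) (monomial c 1)) = if c = c₀ then 1 else 0 := by
      intro c₀ hc₀ c hc
      apply hval
      rw [map_sum]
      have h1 := hγ' c₀ hc₀ c hc
      rw [← Finset.sum_attach] at h1
      have h2 : algebraMap A K (if c = c₀ then 1 else 0) = if c = c₀ then 1 else 0 := by
        split_ifs
        · exact map_one _
        · exact map_zero _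
      rw [h2, ← h1]
      apply Finset.sum_congr rfl
      intro r _
      rw [map_mul, ← coeff_map, map_tr, map_monomial, map_one, hPAval]
      rfl
    have hcoef : ∀ c₀ ∈ Ex σ D, coeff c₀ g = 0 := by
      intro c₀ hc₀
      have h1 : ∑ r ∈ R.attach, θ ⟨γ c₀ r.1, hγA c₀ hc₀ r.1 r.2⟩ *
          ∑ c ∈ Ex σ D, coeff c g * θ (coeff r.1.2 (tr (PA r.1.1) (monomial c 1))) = 0 := by
        apply Finset.sum_eq_zero
        intro r _
        rw [hsys r.1 r.2, mul_zero]
      have h2 : ∑ r ∈ R.attach, θ ⟨γ c₀ r.1, hγA c₀ hc₀ r.1 r.2⟩ *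
          ∑ c ∈ Ex σ D, coeff c g * θ (coeff r.1.2 (tr (PA r.1.1) (monomial c 1)))
          = ∑ c ∈ Ex σ D, coeff c g * θ (∑ r ∈ R.attach, (⟨γ c₀ r.1, hγA c₀ hc₀ r.1 r.2⟩ : A) *
            coeff r.1.2 (tr (PA r.1.1) (monomial c 1))) := by
        calc _ = ∑ r ∈ R.attach, ∑ c ∈ Ex σ D, θ ⟨γ c₀ r.1, hγA c₀ hc₀ r.1 r.2⟩ *
              (coeff c g * θ (coeff r.1.2 (tr (PA r.1.1) (monomial c 1)))) :=
              Finset.sum_congr rfl fun r _ => Finset.mul_sum _ _ _
          _ = ∑ c ∈ Ex σ D, ∑ r ∈ R.attach, θ ⟨γ c₀ r.1, hγA c₀ hc₀ r.1 r.2⟩ *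
              (coeff c g * θ (coeff r.1.2 (tr (PA r.1.1) (monomial c 1)))) := Finset.sum_comm
          _ = _ := by
            apply Finset.sum_congr rfl
            intro c _
            rw [map_sum, Finset.mul_sum]
            apply Finset.sum_congr rfl
            intro r _
            rw [map_mul]
            ring
      rw [h2, Finset.sum_eq_single c₀] at h1
      · rw [hA1 c₀ hc₀ c₀ hc₀, if_pos rfl, map_one, mul_one] at h1
        exact h1
      · intro c hc hcc
        rw [hA1 c₀ hc₀ c hc, if_neg hcc, map_zero, mul_zero]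
      · intro h3; exact absurd hc₀ h3
    ext u
    rw [coeff_zero]
    by_cases hu : u.degree = D
    · exact hcoef u (mem_Ex.2 hu)
    · exact hg.coeff_eq_zero hu

/-- **the main inequality over every field**: if `f` is a nonzero form of degree `d` vanishing to
order at least `ρ i` at `P i` for every `i`, and `(μ i + M) B ≤ ρ i A` for every `i`, then some
nonzero form of degree `n` with `(n + M) B ≤ A d` vanishes to order at least `μ i` at `P i`. -/
theorem main_all {M : ℕ} (hM : Fintype.card σ = M + 2) {ι : Type*} [Fintype ι] [Nonempty ι]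
    {K : Type u} [Field K] (P : ι → σ → K) (hP : ∀ i, P i ≠ 0) (μ ρ : ι → ℕ) (A B : ℕ) (hB : 0 < B)
    (hρ : ∀ i, (μ i + M) * B ≤ ρ i * A) {f : MvPolynomial σ K} {d : ℕ}
    (hf : f.IsHomogeneous d) (h0 : f ≠ 0) (hk : ∀ i, f ∈ Vi (P i) (ρ i)) :
    ∃ (n : ℕ) (g : MvPolynomial σ K), g.IsHomogeneous n ∧ g ≠ 0 ∧ (∀ i, g ∈ Vi (P i) (μ i)) ∧
      (n + M) * B ≤ A * d := by
  classical
  by_contra hcon
  push Not at hcon
  set D := A * d / B - M with hD
  obtain ⟨L, _, _, p, _, _, P', f', hP', hf', h0', hk', hno⟩ :=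
    specialise P hP μ ρ D d f hf h0 hk
  obtain ⟨n, g, hg, hg0, hgV, hn⟩ := main_p p hM P' hP' μ ρ A B hB hρ hf' h0' hk'
  have h1 : n + M ≤ A * d / B := (Nat.le_div_iff_mul_le hB).2 hn
  have hnD : n ≤ D := by omega
  have hDM : (D + M) * B ≤ A * d := by
    have : D + M = A * d / B := by omega
    rw [this]; exact Nat.div_mul_le_self _ _
  have hNo : NoForm P μ D := by
    intro g' hg' hgV'
    by_contra hg0'
    have := hcon D g' hg' hg0' hgV'
    omega
  have hNo' := hno hNo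
  obtain ⟨i₀⟩ : Nonempty σ := by
    rw [← Fintype.card_pos_iff]; omega
  have h2 := hNo' (g * X i₀ ^ (D - n)) (by
    have := hg.mul (isHomogeneous_X_pow (R := L) i₀ (D - n))
    rwa [Nat.add_sub_cancel' hnD] at this) (fun i => Ideal.mul_mem_right _ _ (hgV i))
  rcases mul_eq_zero.1 h2 with h3 | h3
  · exact hg0 h3
  · exact pow_ne_zero _ (X_ne_zero i₀) h3

end Pool.Agent.Helper50.Dem
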