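import Mathlib

/-!
# Definitions for the inequality of Demailly

`Forms` are elements of `K[x_0, …, x_N] = MvPolynomial (Fin (N + 1)) K`.
-/

set_option autoImplicit false

open MvPolynomial

namespace Pool.Agent.Helper50.Dem

/-- the homogeneous ideal in `K[x_0, …, x_N]` of the point of `ℙ^N` with coordinate vector `p`,
generated by the `p_i x_j - p_j x_i` (the same expression as in the frozen statement S00237) -/
noncomputable def ptIdeal {K : Type*} [Field K] {N : ℕ} (p : Fin (N + 1) → K) :
    Ideal (MvPolynomial (Fin (N + 1)) K) :=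
  Ideal.span (Set.range fun ij : Fin (N + 1) × Fin (N + 1) =>
    (C (p ij.1) : MvPolynomial (Fin (N + 1)) K) * X ij.2 - C (p ij.2) * X ij.1)

/-- the ideal `⋂_{p ∈ Z} I(p)^{μ p}` of the fat point scheme with multiplicity `μ p` at `p`; for
constant `μ = m ≥ 1` this is the symbolic power `I^{(m)}` of the radical ideal `I` of `Z` -/
noncomputable def fat {K : Type*} [Field K] {N : ℕ} (Z : Finset (Fin (N + 1) → K))
    (μ : (Fin (N + 1) → K) → ℕ) : Ideal (MvPolynomial (Fin (N + 1)) K) :=
  ⨅ p ∈ Z, ptIdeal p ^ μ p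

/-- the least degree of a nonzero homogeneous element of `J` -/
noncomputable def alpha {K : Type*} [Field K] {N : ℕ}
    (J : Ideal (MvPolynomial (Fin (N + 1)) K)) : ℕ :=
  sInf {d | ∃ f ∈ J, f ≠ 0 ∧ f.IsHomogeneous d}

end Pool.Agent.Helper50.Dem
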