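import Mathlib
import Pool.Agent.Helper50.Dem.All
import Pool.Agent.Helper50.Dem.Defs

/-!
# From orders of vanishing to ideals of fat points
-/

set_option autoImplicit false

open MvPolynomial

namespace Pool.Agent.Helper50.Dem

universe u

variable {K : Type u} [Field K] {N : ℕ}

lemma ptIdeal_le_Vi (p : Fin (N + 1) → K) : ptIdeal p ≤ Vi p 1 := by
  unfold ptIdeal
  rw [Ideal.span_le]
  rintro _ ⟨⟨i, j⟩, rfl⟩
  simp only [SetLike.mem_coe]
  unfold Vi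
  rw [Ideal.mem_comap, pow_one]
  have h1 : tr p (C (p i) * X j - C (p j) * X i) = C (p i) * X j - C (p j) * X i := by
    rw [map_sub, map_mul, map_mul, tr_X, tr_C, tr_X, tr_C]
    ring
  rw [h1]
  have hX : ∀ j : Fin (N + 1), (X j : MvPolynomial (Fin (N + 1)) K) ∈
      idealOfVars (Fin (N + 1)) K := fun j => Ideal.subset_span ⟨j, rfl⟩
  exact Ideal.sub_mem _ (Ideal.mul_mem_left _ _ (hX _)) (Ideal.mul_mem_left _ _ (hX _))

lemma ptIdeal_pow_le (p : Fin (N + 1) → K) (k : ℕ) : ptIdeal p ^ k ≤ Vi p k := by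
  refine (Ideal.pow_right_mono (ptIdeal_le_Vi p) k).trans ?_
  unfold Vi
  rw [pow_one]
  exact Ideal.le_comap_pow _ _

lemma lin_mem_ptIdeal (p : Fin (N + 1) → K) (i₀ : Fin (N + 1)) (h0 : p i₀ ≠ 0)
    (i : Fin (N + 1)) : lin p i₀ i ∈ ptIdeal p := by
  have h1 : lin p i₀ i = C (p i₀)⁻¹ * (C (p i₀) * X i - C (p i) * X i₀) := by
    unfold lin
    rw [mul_sub, ← mul_assoc, ← C_mul, inv_mul_cancel₀ h0, C_1, one_mul, ← mul_assoc, ← C_mul,
      div_eq_inv_mul]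
  rw [h1]
  exact Ideal.mul_mem_left _ _ (Ideal.subset_span ⟨(i₀, i), rfl⟩)

lemma Psi'_monomial_mem_ptIdeal (p : Fin (N + 1) → K) (i₀ : Fin (N + 1)) (h0 : p i₀ ≠ 0)
    (v : Fin (N + 1) →₀ ℕ) (β : K) :
    Psi' p i₀ (monomial v β) ∈ ptIdeal p ^ (v.erase i₀).degree := by
  have h2 : (monomial v β : MvPolynomial (Fin (N + 1)) K)
      = C β * X i₀ ^ v i₀ * monomial (v.erase i₀) 1 := by
    rw [X_pow_eq_monomial, C_mul_monomial, monomial_mul, mul_one, mul_one,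
      add_comm (Finsupp.single i₀ (v i₀)) _, Finsupp.erase_add_single]
  have h3 : ∀ b : Fin (N + 1) →₀ ℕ, b i₀ = 0 →
      Psi' p i₀ (monomial b 1) ∈ ptIdeal p ^ b.degree := by
    intro b hb
    rw [monomial_eq, map_mul, Finsupp.prod, map_prod, C_1, map_one, one_mul]
    have h4 : b.degree = ∑ i ∈ b.support, b i := rfl
    rw [h4, ← Finset.prod_pow_eq_pow_sum]
    apply Ideal.prod_mem_prod
    intro i hi
    have : i ≠ i₀ := by rintro rfl; exact (Finsupp.mem_support_iff.1 hi) hb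
    rw [map_pow, Psi'_X, if_neg this]
    exact Ideal.pow_mem_pow (lin_mem_ptIdeal p i₀ h0 i) _
  rw [h2, map_mul]
  exact Ideal.mul_mem_left _ _ (h3 _ (Finsupp.erase_same))

/-- a form vanishing to order `k` at `p` lies in the `k`-th power of the ideal of `p` -/
lemma mem_ptIdeal_pow {p : Fin (N + 1) → K} (hp : p ≠ 0) {k d : ℕ}
    {f : MvPolynomial (Fin (N + 1)) K} (hf : f.IsHomogeneous d) (hk : f ∈ Vi p k) :
    f ∈ ptIdeal p ^ k := by
  obtain ⟨i₀, h0⟩ : ∃ i, p i ≠ 0 := by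
    by_contra h
    push Not at h
    exact hp (funext h)
  obtain ⟨F, hF, hsupp⟩ := exists_decomp p i₀ h0 hf hk
  rw [hF, F.as_sum, map_sum]
  apply Ideal.sum_mem
  intro c hc
  exact Ideal.pow_le_pow_right (hsupp c hc) (Psi'_monomial_mem_ptIdeal p i₀ h0 c _)

/-- for forms, membership in the ideal of a fat point scheme is a condition on the orders of
vanishing -/
lemma mem_fat {Z : Finset (Fin (N + 1) → K)} (h0 : ∀ p ∈ Z, p ≠ 0)
    (μ : (Fin (N + 1) → K) → ℕ) {d : ℕ} {f : MvPolynomial (Fin (N + 1)) K}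
    (hf : f.IsHomogeneous d) : f ∈ fat Z μ ↔ ∀ p ∈ Z, f ∈ Vi p (μ p) := by
  unfold fat
  simp only [Ideal.mem_iInf]
  exact ⟨fun h p hp => ptIdeal_pow_le p _ (h p hp), fun h p hp => mem_ptIdeal_pow (h0 p hp) hf
    (h p hp)⟩

/-- the ideal of a fat point scheme contains nonzero forms -/
lemma exists_form_fat (hN : 1 ≤ N) {Z : Finset (Fin (N + 1) → K)} (h0 : ∀ p ∈ Z, p ≠ 0)
    (μ : (Fin (N + 1) → K) → ℕ) :
    ∃ (d : ℕ) (f : MvPolynomial (Fin (N + 1)) K), f ∈ fat Z μ ∧ f ≠ 0 ∧ f.IsHomogeneous d := by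
  classical
  have h1 : ∀ p : Fin (N + 1) → K, p ≠ 0 → ∃ l : MvPolynomial (Fin (N + 1)) K,
      l ∈ ptIdeal p ∧ l ≠ 0 ∧ l.IsHomogeneous 1 := by
    intro p hp
    obtain ⟨i, hi⟩ : ∃ i, p i ≠ 0 := by
      by_contra h
      push Not at h
      exact hp (funext h)
    obtain ⟨j, hj⟩ : ∃ j : Fin (N + 1), j ≠ i := by
      have : Nontrivial (Fin (N + 1)) := Fin.nontrivial_iff_two_le.2 (by omega)
      exact exists_ne i
    refine ⟨C (p i) * X j - C (p j) * X i, Ideal.subset_span ⟨(i, j), rfl⟩, ?_, ?_⟩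
    · intro h
      have h2 := congrArg (coeff (Finsupp.single j 1)) h
      rw [coeff_sub, coeff_C_mul, coeff_C_mul, coeff_zero, coeff_X, coeff_X, if_pos rfl,
        if_neg ((Finsupp.single_left_injective one_ne_zero).ne (Ne.symm hj))] at h2
      apply hi
      simpa using h2
    · exact (isHomogeneous_C_mul_X _ _).sub (isHomogeneous_C_mul_X _ _)
  choose! l hl hl0 hlh using h1
  refine ⟨∑ p ∈ Z, μ p, ∏ p ∈ Z, l p ^ μ p, ?_, ?_, ?_⟩
  · unfold fat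
    simp only [Ideal.mem_iInf]
    intro p hp
    rw [← Finset.mul_prod_erase Z _ hp]
    exact Ideal.mul_mem_right _ _ (Ideal.pow_mem_pow (hl p (h0 p hp)) _)
  · exact Finset.prod_ne_zero_iff.2 fun p hp => pow_ne_zero _ (hl0 p (h0 p hp))
  · refine IsHomogeneous.prod Z _ _ fun p hp => ?_
    have := (hlh p (h0 p hp)).pow (μ p)
    rwa [one_mul] at this

/-- `alpha` of a fat point ideal is attained -/
lemma alpha_spec (hN : 1 ≤ N) {Z : Finset (Fin (N + 1) → K)} (h0 : ∀ p ∈ Z, p ≠ 0)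
    (μ : (Fin (N + 1) → K) → ℕ) :
    ∃ f ∈ fat Z μ, f ≠ 0 ∧ f.IsHomogeneous (alpha (fat Z μ)) := by
  obtain ⟨d, f, hf, hf0, hfd⟩ := exists_form_fat hN h0 μ
  exact Nat.sInf_mem (s := {d | ∃ f ∈ fat Z μ, f ≠ 0 ∧ f.IsHomogeneous d}) ⟨d, f, hf, hf0, hfd⟩

lemma alpha_le {J : Ideal (MvPolynomial (Fin (N + 1)) K)} {d : ℕ}
    {f : MvPolynomial (Fin (N + 1)) K} (hf : f ∈ J) (hf0 : f ≠ 0) (hfd : f.IsHomogeneous d) :
    alpha J ≤ d := Nat.sInf_le ⟨f, hf, hf0, hfd⟩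

/-- the main inequality, with integer weights -/
lemma alpha_ineq_nat (hN : 1 ≤ N) {Z : Finset (Fin (N + 1) → K)} (hZ : Z.Nonempty)
    (h0 : ∀ p ∈ Z, p ≠ 0) (μ ρ : (Fin (N + 1) → K) → ℕ) (A B : ℕ) (hB : 0 < B)
    (h : ∀ p ∈ Z, (μ p + (N - 1)) * B ≤ ρ p * A) :
    (alpha (fat Z μ) + (N - 1)) * B ≤ A * alpha (fat Z ρ) := by
  classical
  obtain ⟨f, hf, hf0, hfd⟩ := alpha_spec hN h0 ρ
  have hne : Nonempty {p // p ∈ Z} := hZ.to_subtype
  have hV := (mem_fat h0 ρ hfd).1 hf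
  obtain ⟨n, g, hg, hg0, hgV, hn⟩ := main_all (σ := Fin (N + 1)) (M := N - 1)
    (by rw [Fintype.card_fin]; omega) (ι := {p // p ∈ Z}) (fun p => p.1)
    (fun p => h0 p.1 p.2) (fun p => μ p.1) (fun p => ρ p.1) A B hB (fun p => h p.1 p.2) hfd hf0
    (fun p => hV p.1 p.2)
  have h1 : alpha (fat Z μ) ≤ n :=
    alpha_le ((mem_fat h0 μ hg).2 fun p hp => hgV ⟨p, hp⟩) hg0 hg
  calc (alpha (fat Z μ) + (N - 1)) * B ≤ (n + (N - 1)) * B := by gcongr
    _ ≤ A * alpha (fat Z ρ) := hn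

/-- the main inequality, with a real factor -/
lemma alpha_ineq (hN : 1 ≤ N) {Z : Finset (Fin (N + 1) → K)} (hZ : Z.Nonempty)
    (h0 : ∀ p ∈ Z, p ≠ 0) (μ ρ : (Fin (N + 1) → K) → ℕ) (l : ℝ) (hl : 0 ≤ l)
    (h : ∀ p ∈ Z, (μ p : ℝ) + N - 1 ≤ l * ρ p) :
    (alpha (fat Z μ) : ℝ) + N - 1 ≤ l * alpha (fat Z ρ) := by
  have hNr : ((N - 1 : ℕ) : ℝ) = (N : ℝ) - 1 := by
    rw [Nat.cast_sub hN, Nat.cast_one]
  -- rational factors
  have hq : ∀ q : ℚ, l < q → (alpha (fat Z μ) : ℝ) + N - 1 ≤ q * alpha (fat Z ρ) := by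
    intro q hq
    have hq0 : (0 : ℚ) < q := by
      have : (0 : ℝ) < q := lt_of_le_of_lt hl hq
      exact_mod_cast this
    have hqr : (q : ℝ) = (q.num.toNat : ℝ) / (q.den : ℝ) := by
      have h1 : ((q.num.toNat : ℤ) : ℝ) = (q.num : ℝ) := by
        rw [Int.toNat_of_nonneg (Rat.num_nonneg.2 hq0.le)]
      have h2 : (q : ℝ) = (q.num : ℝ) / (q.den : ℝ) := by
        exact_mod_cast (Rat.num_div_den q).symm
      rw [h2, ← h1, Int.cast_natCast]
    have hden : (0 : ℝ) < q.den := by exact_mod_cast q.den_pos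
    have h2 := alpha_ineq_nat hN hZ h0 μ ρ q.num.toNat q.den q.den_pos (by
      intro p hp
      have h3 : (μ p : ℝ) + N - 1 ≤ q * ρ p :=
        (h p hp).trans (mul_le_mul_of_nonneg_right hq.le (Nat.cast_nonneg _))
      rw [hqr, div_mul_eq_mul_div, le_div_iff₀ hden] at h3
      have h4 : (((μ p + (N - 1)) * q.den : ℕ) : ℝ) ≤ ((ρ p * q.num.toNat : ℕ) : ℝ) := by
        push_cast
        rw [hNr]
        linarith [h3]
      exact_mod_cast h4)
    have h5 : (((alpha (fat Z μ) + (N - 1)) * q.den : ℕ) : ℝ)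
        ≤ ((q.num.toNat * alpha (fat Z ρ) : ℕ) : ℝ) := by exact_mod_cast h2
    push_cast at h5
    rw [hNr] at h5
    rw [hqr, div_mul_eq_mul_div, le_div_iff₀ hden]
    linarith [h5]
  by_contra hcon
  push Not at hcon
  rcases Nat.eq_zero_or_pos (alpha (fat Z ρ)) with h1 | h1
  · obtain ⟨q, hq1, _⟩ := exists_rat_btwn (lt_add_one l)
    have h2 := hq q hq1
    rw [h1] at h2 hcon
    simp only [Nat.cast_zero, mul_zero] at h2 hcon
    linarith
  · have h1' : (0 : ℝ) < alpha (fat Z ρ) := by exact_mod_cast h1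
    have h2 : l < ((alpha (fat Z μ) : ℝ) + N - 1) / alpha (fat Z ρ) := by
      rw [lt_div_iff₀ h1']; exact hcon
    obtain ⟨q, hq1, hq2⟩ := exists_rat_btwn h2
    have h3 := hq q hq1
    rw [lt_div_iff₀ h1'] at hq2
    linarith

/-- `alpha` is subadditive -/
lemma alpha_add_le (hN : 1 ≤ N) {Z : Finset (Fin (N + 1) → K)} (h0 : ∀ p ∈ Z, p ≠ 0)
    (μ ρ : (Fin (N + 1) → K) → ℕ) :
    alpha (fat Z fun p => μ p + ρ p) ≤ alpha (fat Z μ) + alpha (fat Z ρ) := by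
  obtain ⟨f, hf, hf0, hfd⟩ := alpha_spec hN h0 μ
  obtain ⟨g, hg, hg0, hgd⟩ := alpha_spec hN h0 ρ
  refine alpha_le (f := f * g) ?_ (mul_ne_zero hf0 hg0) (hfd.mul hgd)
  unfold fat at *
  simp only [Ideal.mem_iInf] at *
  intro p hp
  rw [pow_add]
  exact Ideal.mul_mem_mul (hf p hp) (hg p hp)

/-- the initial degrees of the multiples of a fat point scheme grow like a linear function -/
lemma exists_waldschmidt (hN : 1 ≤ N) {Z : Finset (Fin (N + 1) → K)} (h0 : ∀ p ∈ Z, p ≠ 0)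
    (w : (Fin (N + 1) → K) → ℕ) :
    ∃ L : ℝ, Filter.Tendsto (fun r : ℕ => (alpha (fat Z fun p => r * w p) : ℝ) / r)
      Filter.atTop (nhds L) := by
  have hsub : Subadditive fun r : ℕ => (alpha (fat Z fun p => r * w p) : ℝ) := by
    intro m n
    have h1 : (fun p => (m + n) * w p) = fun p => m * w p + n * w p := by
      funext p; ring
    simp only [h1]
    exact_mod_cast alpha_add_le hN h0 _ _
  refine ⟨hsub.lim, hsub.tendsto_lim ⟨0, ?_⟩⟩
  rintro _ ⟨n, rfl⟩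
  positivity

end Pool.Agent.Helper50.Dem
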